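import Pool.Agent.Q14.UM.EL

set_option autoImplicit false

/-!
Project UM5 (helper97): job EK.
-/

namespace Pool.Agent.Q14.UM

open Filter Topology MeasureTheory Complex
open Pool.Agent.Q97.UM

noncomputable section

theorem cv_len (u v : ℕ → ℂ) (K M : ℕ) (hu : ∀ n, K < n → u n = 0) (hv : ∀ n, M < n → v n = 0) :
    ∀ n, K * M < n → cv u v n = 0 := by
  intro n hn
  unfold cv
  apply Finset.sum_eq_zero
  intro b hb
  rw [Nat.mem_divisorsAntidiagonal] at hb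
  rcases Nat.lt_or_ge K b.1 with h | h
  · rw [hu _ h, zero_mul]
  · rcases Nat.lt_or_ge M b.2 with h' | h'
    · rw [hv _ h', mul_zero]
    · exfalso
      have := Nat.mul_le_mul h h'
      omega

theorem cvp_len (q : ℕ → ℂ) (K : ℕ) (hq : ∀ n, K < n → q n = 0) (r : ℕ) : ∀ n, K ^ r < n → cvp q r n = 0 := by
  induction r with
  | zero =>
    intro n hn
    unfold cvp
    rw [if_neg]
    simp at hn
    omega
  | succ r ih =>
    intro n hn
    rw [pow_succ, mul_comm] at hn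
    exact cv_len q (cvp q r) K (K ^ r) hq ih n hn

theorem te_len (q : ℕ → ℂ) (K R : ℕ) (hK : 1 ≤ K) (hq : ∀ n, K < n → q n = 0) : ∀ n, K ^ R < n → te q R n = 0 := by
  intro n hn
  unfold te
  apply Finset.sum_eq_zero
  intro r hr
  rw [Finset.mem_range] at hr
  rw [cvp_len q K hq r n, zero_div]
  exact lt_of_le_of_lt (Nat.pow_le_pow_right hK (by omega)) hn

theorem dp_ext (N M : ℕ) (b : ℕ → ℂ) (t : ℝ) (hN : ∀ n, N < n → b n = 0) (hM : ∀ n, M < n → b n = 0) : dp N b t = dp M b t := by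
  unfold dp
  rcases le_total N M with h | h
  · apply Finset.sum_subset (Finset.Icc_subset_Icc_right h)
    intro n hn hn2
    rw [Finset.mem_Icc] at hn hn2
    rw [hN n (by omega), zero_mul]
  · symm
    apply Finset.sum_subset (Finset.Icc_subset_Icc_right h)
    intro n hn hn2
    rw [Finset.mem_Icc] at hn hn2
    rw [hM n (by omega), zero_mul]

theorem dp_cvp (hd : S_DPM) (q : ℕ → ℂ) (K : ℕ) (hq : ∀ n, K < n → q n = 0) (t : ℝ) (r : ℕ) :
    dp (K ^ r) (cvp q r) t = dp K q t ^ r := by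
  induction r with
  | zero =>
    unfold dp cvp
    simp
  | succ r ih =>
    have h := hd.1 K (K ^ r) q (cvp q r) t hq (cvp_len q K hq r)
    rw [ih] at h
    rw [pow_succ, pow_succ, mul_comm (K ^ r) K, mul_comm (dp K q t ^ r), h]
    rfl

theorem dp_te (hd : S_DPM) (q : ℕ → ℂ) (K R : ℕ) (hK : 1 ≤ K) (hq : ∀ n, K < n → q n = 0) (t : ℝ) :
    dp (K ^ R) (te q R) t = ∑ r ∈ Finset.range (R + 1), dp K q t ^ r / (r.factorial : ℂ) := by
  have h1 : dp (K ^ R) (te q R) t = ∑ r ∈ Finset.range (R + 1), dp (K ^ R) (cvp q r) t / (r.factorial : ℂ) := by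
    unfold dp te
    simp only [Finset.sum_mul, Finset.sum_div]
    rw [Finset.sum_comm]
    apply Finset.sum_congr rfl
    intro r _
    apply Finset.sum_congr rfl
    intro n _
    ring
  rw [h1]
  apply Finset.sum_congr rfl
  intro r hr
  rw [Finset.mem_range] at hr
  rw [← dp_cvp hd q K hq t r]
  congr 1
  apply dp_ext
  · intro n hn
    exact cvp_len q K hq r n (lt_of_le_of_lt (Nat.pow_le_pow_right hK (by omega)) hn)
  · exact cvp_len q K hq r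

/-- support bound of block `j` -/
def KB' (D : ℝ) (j : ℕ) : ℕ := ⌊XB D j⌋₊ ^ 2

/-- support bound of the product -/
def NB (D κ : ℝ) (J : ℕ) : ℕ := ∏ j ∈ Finset.range J, KB' D j ^ RB' κ j

theorem floorXB (D : ℝ) (j : ℕ) (hD : 0 ≤ D) : 1 ≤ ⌊XB D j⌋₊ := by
  rw [Nat.le_floor_iff (XB_pos D j).le]
  unfold XB
  push_cast
  apply Real.one_le_exp
  positivity

theorem KB_one (D : ℝ) (j : ℕ) (hD : 0 ≤ D) : 1 ≤ KB' D j := Nat.one_le_pow _ _ (floorXB D j hD)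

theorem qb_len (D : ℝ) (a a2 : ℕ → ℂ) (j : ℕ) (hD : 0 ≤ D) : ∀ n, KB' D j < n → qb D a a2 j n = 0 := by
  intro n hn
  by_contra h
  have h1 := qb_supp D a a2 j n h
  rw [Finset.mem_union, Finset.mem_image] at h1
  have h2 := floorXB D j hD
  unfold KB' at hn
  rcases h1 with h1 | ⟨p, hp, rfl⟩
  · have h3 : n ≤ ⌊XB D j⌋₊ := (Nat.le_floor_iff (XB_pos D j).le).2 (mem_PB h1).2.2
    nlinarith
  · have h3 : p ≤ ⌊XB D j⌋₊ := (Nat.le_floor_iff (XB_pos D j).le).2 (mem_PB hp).2.2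
    have := Nat.pow_le_pow_left h3 2
    omega

theorem eb_len (D κ : ℝ) (a a2 : ℕ → ℂ) (hD : 0 ≤ D) (J : ℕ) : ∀ n, NB D κ J < n → eb D κ a a2 J n = 0 := by
  induction J with
  | zero =>
    intro n hn
    unfold eb
    unfold NB at hn
    simp at hn
    rw [if_neg (by omega)]
  | succ J ih =>
    have h : NB D κ (J + 1) = KB' D J ^ RB' κ J * NB D κ J := by
      unfold NB
      rw [Finset.prod_range_succ, mul_comm]
    rw [h]
    exact cv_len _ _ _ _ (te_len _ _ _ (KB_one D J hD) (qb_len D a a2 J hD)) ih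

theorem dp_eb (hd : S_DPM) (D κ : ℝ) (a a2 : ℕ → ℂ) (hD : 0 ≤ D) (t : ℝ) (J : ℕ) : dp (NB D κ J) (eb D κ a a2 J) t =
    ∏ j ∈ Finset.range J, ∑ r ∈ Finset.range (RB' κ j + 1), dp (KB' D j) (qb D a a2 j) t ^ r / (r.factorial : ℂ) := by
  induction J with
  | zero =>
    unfold dp NB eb
    simp
  | succ J ih =>
    have h : NB D κ (J + 1) = KB' D J ^ RB' κ J * NB D κ J := by
      unfold NB
      rw [Finset.prod_range_succ, mul_comm]
    rw [h, Finset.prod_range_succ, ← ih, ← dp_te hd _ _ _ (KB_one D J hD) (qb_len D a a2 J hD) t, mul_comm (dp (NB D κ J) _ t)]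
    exact (hd.1 _ _ _ _ t (te_len _ _ _ (KB_one D J hD) (qb_len D a a2 J hD)) (eb_len D κ a a2 hD J)).symm

theorem dp_qb (D : ℝ) (a a2 : ℕ → ℂ) (hD : 0 ≤ D) (j : ℕ) (t : ℝ) : dp (KB' D j) (qb D a a2 j) t =
    ∑ p ∈ PB D j, (a p * (p : ℂ) ^ (-(1 / 2 + t * I)) + a2 p / 2 * (p : ℂ) ^ (-(1 + 2 * t * I))) := by
  unfold dp
  have h1 : ∑ n ∈ Finset.Icc 1 (KB' D j), qb D a a2 j n * (n : ℂ) ^ (-(1 / 2 + t * I)) =
      ∑ n ∈ PB D j ∪ (PB D j).image (fun p => p ^ 2), qb D a a2 j n * (n : ℂ) ^ (-(1 / 2 + t * I)) := by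
    symm
    apply Finset.sum_subset
    · intro n hn
      rw [Finset.mem_union, Finset.mem_image] at hn
      rw [Finset.mem_Icc]
      have h2 := floorXB D j hD
      unfold KB'
      rcases hn with hn | ⟨p, hp, rfl⟩
      · have h3 : n ≤ ⌊XB D j⌋₊ := (Nat.le_floor_iff (XB_pos D j).le).2 (mem_PB hn).2.2
        have h4 := (mem_PB hn).1.pos
        exact ⟨h4, by nlinarith⟩
      · have h3 : p ≤ ⌊XB D j⌋₊ := (Nat.le_floor_iff (XB_pos D j).le).2 (mem_PB hp).2.2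
        have := Nat.pow_le_pow_left h3 2
        exact ⟨Nat.one_le_pow _ _ (mem_PB hp).1.pos, this⟩
    · intro n _ hn2
      have : qb D a a2 j n = 0 := by
        by_contra h
        exact hn2 (qb_supp D a a2 j n h)
      rw [this, zero_mul]
  rw [h1, Finset.sum_union, Finset.sum_image, Finset.sum_add_distrib]
  · congr 1
    · apply Finset.sum_congr rfl
      intro p hp
      rw [qb_prime D a a2 j p hp]
    · apply Finset.sum_congr rfl
      intro p hp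
      rw [qb_sq D a a2 j p hp]
      congr 1
      push_cast
      have hp0 : (p : ℂ) ≠ 0 := by exact_mod_cast (mem_PB hp).1.ne_zero
      rw [← Complex.natCast_cpow_natCast_mul]
      congr 1
      push_cast
      ring
  · intro x _ y _ hxy
    simp only at hxy
    exact Nat.pow_left_injective (n := 2) (by norm_num) hxy
  · rw [Finset.disjoint_left]
    intro s hs hs2
    rw [Finset.mem_image] at hs2
    obtain ⟨p, _, rfl⟩ := hs2
    exact Nat.Prime.not_prime_pow (n := 2) le_rfl (mem_PB hs).1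

theorem sum_zj (D : ℝ) (a a2 : ℕ → ℂ) (hD : 1 ≤ D) (t : ℝ) :
    ∑ j ∈ Finset.range (JB D), dp (KB' D j) (qb D a a2 j) t = PA ⌊Real.exp D⌋₊ a a2 t := by
  unfold PA
  rw [PB_union D hD, Finset.sum_biUnion]
  · apply Finset.sum_congr rfl
    intro j _
    exact dp_qb D a a2 (by linarith) j t
  · intro i _ j _ hij
    rw [Function.onFun, Finset.disjoint_left]
    intro p hp hp'
    exact hij (PB_disj D (by linarith) hp hp')

theorem geo_le (x : ℝ) (hx0 : 0 ≤ x) (hx : x < 1) (J : ℕ) : ∑ j ∈ Finset.range J, x ^ j ≤ (1 - x)⁻¹ := by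
  have h := Summable.sum_le_tsum (Finset.range J) (fun j _ => pow_nonneg hx0 j) (summable_geometric_of_lt_one hx0 hx)
  rwa [tsum_geometric_of_lt_one hx0 hx] at h

theorem exp_neg_mul_nat (c x : ℝ) (hc : Real.exp (-c) ≤ x) (j : ℕ) : Real.exp (-(c * j)) ≤ x ^ j := by
  have : Real.exp (-(c * j)) = Real.exp (-c) ^ j := by
    rw [← Real.exp_nat_mul]; congr 1; ring
  rw [this]
  exact pow_le_pow_left₀ (Real.exp_pos _).le hc j

theorem exp_neg_le (c : ℝ) (hc : 0 ≤ c) : Real.exp (-c) ≤ 1 / (1 + c) := by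
  have h1 := Real.add_one_le_exp c
  rw [Real.exp_neg, ← one_div]
  apply one_div_le_one_div_of_le (by linarith)
  linarith

theorem RB_le (κ : ℝ) (hκ : 0 ≤ κ) (j : ℕ) : (RB' κ j : ℝ) ≤ κ * Real.exp (3 / 4 * (j : ℝ)) + 1 :=
  (Nat.ceil_lt_add_one (by positivity)).le

theorem RB_ge (κ : ℝ) (j : ℕ) : κ * Real.exp (3 / 4 * (j : ℝ)) ≤ (RB' κ j : ℝ) := Nat.le_ceil _

theorem KB_le (D : ℝ) (j : ℕ) : (KB' D j : ℝ) ≤ Real.exp (2 * D * Real.exp (-(j : ℝ))) := by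
  unfold KB'
  push_cast
  have h1 : (⌊XB D j⌋₊ : ℝ) ≤ XB D j := Nat.floor_le (XB_pos D j).le
  have h2 : (⌊XB D j⌋₊ : ℝ) ^ 2 ≤ XB D j ^ 2 := pow_le_pow_left₀ (Nat.cast_nonneg _) h1 2
  refine h2.trans (le_of_eq ?_)
  unfold XB
  rw [← Real.exp_nat_mul]
  congr 1
  push_cast
  ring

theorem NB_le (D κ : ℝ) (hD : 0 ≤ D) (hκ : 1 ≤ κ) (J : ℕ) : (NB D κ J : ℝ) ≤ Real.exp (20 * κ * D) := by
  unfold NB
  push_cast
  have h1 : ∀ j ∈ Finset.range J, (KB' D j : ℝ) ^ RB' κ j ≤ Real.exp (2 * D * (κ * (4 / 5 : ℝ) ^ j + (1 / 2 : ℝ) ^ j)) := by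
    intro j _
    have e1 : (KB' D j : ℝ) ^ RB' κ j ≤ Real.exp (2 * D * Real.exp (-(j : ℝ))) ^ RB' κ j :=
      pow_le_pow_left₀ (Nat.cast_nonneg _) (KB_le D j) _
    refine e1.trans ?_
    rw [← Real.exp_nat_mul]
    apply Real.exp_le_exp.2
    have e2 := RB_le κ (by linarith) j
    have e3 : Real.exp (-(j : ℝ)) * Real.exp (3 / 4 * (j : ℝ)) = Real.exp (-((1 / 4) * j)) := by
      rw [← Real.exp_add]; congr 1; ring
    have e4 : Real.exp (-((1 / 4 : ℝ) * j)) ≤ (4 / 5 : ℝ) ^ j := by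
      apply exp_neg_mul_nat
      have := exp_neg_le (1 / 4) (by norm_num)
      norm_num at this ⊢
      exact this
    have e5 : Real.exp (-(j : ℝ)) ≤ (1 / 2 : ℝ) ^ j := by
      have := exp_neg_mul_nat 1 (1 / 2) (by
        have := exp_neg_le 1 (by norm_num)
        norm_num at this ⊢
        exact this) j
      simpa using this
    calc (RB' κ j : ℝ) * (2 * D * Real.exp (-(j : ℝ))) ≤ (κ * Real.exp (3 / 4 * (j : ℝ)) + 1) * (2 * D * Real.exp (-(j : ℝ))) := by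
          apply mul_le_mul_of_nonneg_right e2 (by positivity)
      _ = 2 * D * (κ * (Real.exp (-(j : ℝ)) * Real.exp (3 / 4 * (j : ℝ))) + Real.exp (-(j : ℝ))) := by ring
      _ ≤ 2 * D * (κ * (4 / 5 : ℝ) ^ j + (1 / 2 : ℝ) ^ j) := by
          rw [e3]
          apply mul_le_mul_of_nonneg_left _ (by positivity)
          have : κ * Real.exp (-((1 / 4 : ℝ) * j)) ≤ κ * (4 / 5 : ℝ) ^ j := mul_le_mul_of_nonneg_left e4 (by linarith)
          linarith
  have h2 : ∏ j ∈ Finset.range J, (KB' D j : ℝ) ^ RB' κ j ≤ ∏ j ∈ Finset.range J, Real.exp (2 * D * (κ * (4 / 5 : ℝ) ^ j + (1 / 2 : ℝ) ^ j)) :=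
    Finset.prod_le_prod (fun j _ => by positivity) h1
  refine h2.trans ?_
  rw [← Real.exp_sum]
  apply Real.exp_le_exp.2
  rw [← Finset.mul_sum, Finset.sum_add_distrib, ← Finset.mul_sum]
  have h3 := geo_le (4 / 5) (by norm_num) (by norm_num) J
  have h4 := geo_le (1 / 2) (by norm_num) (by norm_num) J
  norm_num at h3 h4
  have h5 : κ * ∑ j ∈ Finset.range J, (4 / 5 : ℝ) ^ j + ∑ j ∈ Finset.range J, (1 / 2 : ℝ) ^ j ≤ 10 * κ := by
    have h6 : κ * ∑ j ∈ Finset.range J, (4 / 5 : ℝ) ^ j ≤ κ * 5 := mul_le_mul_of_nonneg_left h3 (by linarith)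
    norm_num
    linarith
  calc 2 * D * (κ * ∑ j ∈ Finset.range J, (4 / 5 : ℝ) ^ j + ∑ j ∈ Finset.range J, (1 / 2 : ℝ) ^ j) ≤ 2 * D * (10 * κ) := by
        apply mul_le_mul_of_nonneg_left h5 (by linarith)
    _ = 20 * κ * D := by ring

theorem KB_le_M (D : ℝ) (j : ℕ) (hD : 0 ≤ D) : KB' D j ≤ ⌊Real.exp (2 * D)⌋₊ := by
  rw [Nat.le_floor_iff (Real.exp_pos _).le]
  refine (KB_le D j).trans ?_
  apply Real.exp_le_exp.2
  have h1 : Real.exp (-(j : ℝ)) ≤ 1 := by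
    rw [Real.exp_le_one_iff]
    have : (0 : ℝ) ≤ j := Nat.cast_nonneg j
    linarith
  calc 2 * D * Real.exp (-(j : ℝ)) ≤ 2 * D * 1 := by
        apply mul_le_mul_of_nonneg_left h1 (by linarith)
    _ = 2 * D := by ring

/-- weights -/
def wB (κ : ℝ) (j : ℕ) : ℝ := 2 * (10 / (RB' κ j : ℝ)) ^ 5

theorem RB_pos (κ : ℝ) (hκ : 1 ≤ κ) (j : ℕ) : 1 ≤ RB' κ j := by
  have h := RB_ge κ j
  have h1 : 1 ≤ Real.exp (3 / 4 * (j : ℝ)) := Real.one_le_exp (by positivity)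
  have h2 : (1 : ℝ) ≤ (RB' κ j : ℝ) := by nlinarith
  exact_mod_cast h2

theorem up_bd (hTE : S_TE) (hd : S_DPM) (D κ : ℝ) (hD : 1 ≤ D) (hκ : 1 ≤ κ) (a a2 : ℕ → ℂ) (t : ℝ) (M₀ : ℕ)
    (hM₀ : ∀ j, KB' D j ≤ M₀) (hne : dp (NB D κ (JB D)) (eb D κ a a2 (JB D)) t ≠ 0) :
    Real.log ‖dp (NB D κ (JB D)) (eb D κ a a2 (JB D)) t‖ ≤ (PA ⌊Real.exp D⌋₊ a a2 t).re + 3 +
      ∑ j ∈ Finset.range (JB D), wB κ j * ‖dp M₀ (qb D a a2 j) t‖ ^ 6 := by
  have hD0 : 0 ≤ D := by linarith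
  rw [dp_eb hd D κ a a2 hD0 t (JB D)] at hne ⊢
  rw [norm_prod, Real.log_prod]
  · have h1 : ∀ j ∈ Finset.range (JB D), Real.log ‖∑ r ∈ Finset.range (RB' κ j + 1), dp (KB' D j) (qb D a a2 j) t ^ r / (r.factorial : ℂ)‖ ≤
        (dp (KB' D j) (qb D a a2 j) t).re + (4 / 7 : ℝ) ^ j + wB κ j * ‖dp M₀ (qb D a a2 j) t‖ ^ 6 := by
      intro j hj
      have h2 := hTE (RB' κ j) (dp (KB' D j) (qb D a a2 j) t) (RB_pos κ hκ j) (Finset.prod_ne_zero_iff.1 hne j hj)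
      have h3 : Real.exp (-(RB' κ j : ℝ)) ≤ (4 / 7 : ℝ) ^ j := by
        have e1 : Real.exp (-(RB' κ j : ℝ)) ≤ Real.exp (-((3 / 4 : ℝ) * j)) := by
          apply Real.exp_le_exp.2
          have e2 := RB_ge κ j
          have e3 := Real.add_one_le_exp (3 / 4 * (j : ℝ))
          have e4 : 0 < Real.exp (3 / 4 * (j : ℝ)) := Real.exp_pos _
          nlinarith
        refine e1.trans ?_
        apply exp_neg_mul_nat
        have := exp_neg_le (3 / 4) (by norm_num)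
        norm_num at this ⊢
        exact this
      have h4 : dp (KB' D j) (qb D a a2 j) t = dp M₀ (qb D a a2 j) t := by
        apply dp_ext
        · exact qb_len D a a2 j hD0
        · intro n hn
          exact qb_len D a a2 j hD0 n (lt_of_le_of_lt (hM₀ j) hn)
      unfold wB
      rw [← h4]
      linarith
    refine (Finset.sum_le_sum h1).trans ?_
    rw [Finset.sum_add_distrib, Finset.sum_add_distrib, ← sum_zj D a a2 hD t, Complex.re_sum]
    have h5 := geo_le (4 / 7) (by norm_num) (by norm_num) (JB D)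
    norm_num at h5
    linarith
  · intro j hj
    exact norm_ne_zero_iff.2 (Finset.prod_ne_zero_iff.1 hne j hj)

theorem mean_bd (A C₁ D κ Y : ℝ) (hA : 1 ≤ A) (hC₁ : 1 ≤ C₁) (hD : 1 ≤ D) (hκ : 1 ≤ κ) (a a2 : ℕ → ℂ)
    (hQM : ∀ (j K M : ℕ) (f : ℕ → ℂ), 1 ≤ M → KB' D j ≤ K → (∀ n, M < n → f n = 0) →
      N2 (K * M) (cv (qb D a a2 j) f) ≤ C₁ * A ^ 2 * (Real.exp (j : ℝ) * Real.log (K * M) / D) * N2 M f)
    (M₀ M : ℕ) (hM₀ : ∀ j, KB' D j ≤ M₀) (hM : 1 ≤ M) (hY : Real.log ((M₀ : ℝ) ^ 3 * M) ≤ Y * D) (hY0 : 0 ≤ Y)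
    (f : ℕ → ℂ) (hf : ∀ n, M < n → f n = 0) (J : ℕ) :
    ∑ j ∈ Finset.range J, wB κ j * N2 (M₀ ^ 3 * M) (cv (qb D a a2 j) (cv (qb D a a2 j) (cv (qb D a a2 j) f))) ≤
      (C₁ * A ^ 2 * Y) ^ 3 * 600000 * N2 M f := by
  have hD0 : 0 ≤ D := by linarith
  have hM01 : 1 ≤ M₀ := (KB_one D 0 hD0).trans (hM₀ 0)
  have hM01' : (1 : ℝ) ≤ M₀ := by exact_mod_cast hM01
  have hM' : (1 : ℝ) ≤ M := by exact_mod_cast hM
  have hN0 : ∀ (X : ℕ) (b : ℕ → ℂ), 0 ≤ N2 X b := by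
    intro X b; unfold N2; positivity
  have h1 : ∀ j ∈ Finset.range J, wB κ j * N2 (M₀ ^ 3 * M) (cv (qb D a a2 j) (cv (qb D a a2 j) (cv (qb D a a2 j) f))) ≤
      (C₁ * A ^ 2 * Y) ^ 3 * 200000 * (4 / 7 : ℝ) ^ j * N2 M f := by
    intro j _
    obtain ⟨q, hq⟩ : ∃ q : ℕ → ℂ, q = qb D a a2 j := ⟨_, rfl⟩
    rw [← hq]
    have hlen : ∀ n, M₀ < n → q n = 0 := by
      intro n hn
      rw [hq]
      exact qb_len D a a2 j hD0 n (lt_of_le_of_lt (hM₀ j) hn)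
    obtain ⟨B, hB⟩ : ∃ B : ℝ, B = C₁ * A ^ 2 * (Real.exp (j : ℝ) * Y) := ⟨_, rfl⟩
    have hB0 : 0 ≤ B := by rw [hB]; positivity
    have step : ∀ (M' : ℕ) (g : ℕ → ℂ), 1 ≤ M' → (∀ n, M' < n → g n = 0) → ((M₀ : ℝ) * M' ≤ (M₀ : ℝ) ^ 3 * M) →
        N2 (M₀ * M') (cv q g) ≤ B * N2 M' g := by
      intro M' g hM'1 hg hle
      have e1 := hQM j M₀ M' g hM'1 (hM₀ j) hg
      rw [← hq] at e1
      refine e1.trans ?_
      apply mul_le_mul_of_nonneg_right _ (hN0 _ _)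
      rw [hB]
      apply mul_le_mul_of_nonneg_left _ (by positivity)
      rw [div_le_iff₀ (by linarith), mul_assoc]
      apply mul_le_mul_of_nonneg_left _ (Real.exp_pos _).le
      refine le_trans ?_ hY
      apply Real.log_le_log _ hle
      have : (1 : ℝ) ≤ M' := by exact_mod_cast hM'1
      positivity
    have hl1 : ∀ n, M₀ * M < n → cv q f n = 0 := cv_len q f M₀ M hlen hf
    have hl2 : ∀ n, M₀ * (M₀ * M) < n → cv q (cv q f) n = 0 := cv_len q _ M₀ _ hlen hl1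
    have s1 := step M f hM hf (by nlinarith [mul_pos (by linarith : (0 : ℝ) < M₀) (by linarith : (0 : ℝ) < M₀), one_le_pow₀ hM01' (n := 2), mul_le_mul_of_nonneg_right (one_le_pow₀ hM01' (n := 2)) (by positivity : (0 : ℝ) ≤ (M₀ : ℝ) * M)])
    have s2 := step (M₀ * M) (cv q f) (Nat.mul_pos hM01 hM) hl1 (by
      push_cast
      nlinarith [mul_le_mul_of_nonneg_right hM01' (by positivity : (0 : ℝ) ≤ (M₀ : ℝ) * M₀ * M)])
    have s3 := step (M₀ * (M₀ * M)) (cv q (cv q f)) (Nat.mul_pos hM01 (Nat.mul_pos hM01 hM)) hl2 (by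
      push_cast
      apply le_of_eq
      ring)
    have e4 : M₀ ^ 3 * M = M₀ * (M₀ * (M₀ * M)) := by ring
    have s4 : N2 (M₀ ^ 3 * M) (cv q (cv q (cv q f))) ≤ B ^ 3 * N2 M f := by
      rw [e4]
      calc N2 (M₀ * (M₀ * (M₀ * M))) (cv q (cv q (cv q f))) ≤ B * N2 (M₀ * (M₀ * M)) (cv q (cv q f)) := s3
        _ ≤ B * (B * N2 (M₀ * M) (cv q f)) := mul_le_mul_of_nonneg_left s2 hB0
        _ ≤ B * (B * (B * N2 M f)) := by
            apply mul_le_mul_of_nonneg_left _ hB0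
            apply mul_le_mul_of_nonneg_left s1 hB0
        _ = B ^ 3 * N2 M f := by ring
    have hw : wB κ j * Real.exp (j : ℝ) ^ 3 ≤ 200000 * (4 / 7 : ℝ) ^ j := by
      unfold wB
      have hR := RB_ge κ j
      have hE : 0 < Real.exp (3 / 4 * (j : ℝ)) := Real.exp_pos _
      have hR' : Real.exp (3 / 4 * (j : ℝ)) ≤ (RB' κ j : ℝ) := by nlinarith
      have e1 : (10 / (RB' κ j : ℝ)) ^ 5 ≤ (10 / Real.exp (3 / 4 * (j : ℝ))) ^ 5 := by
        apply pow_le_pow_left₀ (by positivity)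
        apply div_le_div_of_nonneg_left (by norm_num) hE hR'
      have e2 : (10 / Real.exp (3 / 4 * (j : ℝ))) ^ 5 * Real.exp (j : ℝ) ^ 3 = 100000 * Real.exp (-((3 / 4) * (j : ℝ))) := by
        rw [div_pow, ← Real.exp_nat_mul, ← Real.exp_nat_mul, div_mul_eq_mul_div, div_eq_iff (Real.exp_pos _).ne', mul_assoc, ← Real.exp_add]
        norm_num
        ring
      have e3 : Real.exp (-((3 / 4) * (j : ℝ))) ≤ (4 / 7 : ℝ) ^ j := by
        apply exp_neg_mul_nat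
        have := exp_neg_le (3 / 4) (by norm_num)
        norm_num at this ⊢
        exact this
      calc 2 * (10 / (RB' κ j : ℝ)) ^ 5 * Real.exp (j : ℝ) ^ 3 ≤ 2 * (10 / Real.exp (3 / 4 * (j : ℝ))) ^ 5 * Real.exp (j : ℝ) ^ 3 := by
            gcongr
        _ = 2 * ((10 / Real.exp (3 / 4 * (j : ℝ))) ^ 5 * Real.exp (j : ℝ) ^ 3) := by ring
        _ = 200000 * Real.exp (-((3 / 4) * (j : ℝ))) := by rw [e2]; ring
        _ ≤ _ := by linarith
    have hw0 : 0 ≤ wB κ j := by unfold wB; positivity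
    calc wB κ j * N2 (M₀ ^ 3 * M) (cv q (cv q (cv q f))) ≤ wB κ j * (B ^ 3 * N2 M f) := mul_le_mul_of_nonneg_left s4 hw0
      _ = (C₁ * A ^ 2 * Y) ^ 3 * (wB κ j * Real.exp (j : ℝ) ^ 3) * N2 M f := by rw [hB]; ring
      _ ≤ (C₁ * A ^ 2 * Y) ^ 3 * (200000 * (4 / 7 : ℝ) ^ j) * N2 M f := by
          apply mul_le_mul_of_nonneg_right _ (hN0 _ _)
          apply mul_le_mul_of_nonneg_left hw (by positivity)
      _ = _ := by ring
  refine (Finset.sum_le_sum h1).trans ?_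
  rw [← Finset.sum_mul, ← Finset.mul_sum]
  have h5 := geo_le (4 / 7) (by norm_num) (by norm_num) J
  norm_num at h5
  have h6 : (C₁ * A ^ 2 * Y) ^ 3 * 200000 * ∑ j ∈ Finset.range J, (4 / 7 : ℝ) ^ j ≤ (C₁ * A ^ 2 * Y) ^ 3 * 200000 * 3 := by
    apply mul_le_mul_of_nonneg_left (by linarith) (by positivity)
  calc (C₁ * A ^ 2 * Y) ^ 3 * 200000 * (∑ j ∈ Finset.range J, (4 / 7 : ℝ) ^ j) * N2 M f ≤ (C₁ * A ^ 2 * Y) ^ 3 * 200000 * 3 * N2 M f := by
        apply mul_le_mul_of_nonneg_right h6 (hN0 _ _)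
    _ = _ := by ring

theorem t_EK : J_EK := by
  intro hTE hBM hQM hEL hd A hA
  obtain ⟨κ, c, hκ, hc, hEL'⟩ := hEL hBM A hA
  obtain ⟨C₁, hC₁, hQM'⟩ := hQM hBM
  refine ⟨κ, hκ, ?_⟩
  intro δ hδ
  refine ⟨max 3 ((C₁ * A ^ 2 * (7 + 20 * κ)) ^ 3 * 600000), c, le_trans (by norm_num) (le_max_left _ _), hc, ?_⟩
  filter_upwards [eventually_ge_atTop (Real.exp (1 / δ)), eventually_ge_atTop 1] with T hT hT1
  intro a a2 ha ha2
  have hT0 : 0 < T := by linarith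
  obtain ⟨D, hD⟩ : ∃ D : ℝ, D = δ * Real.log T := ⟨_, rfl⟩
  have hD1 : 1 ≤ D := by
    have h1 : 1 / δ ≤ Real.log T := (Real.le_log_iff_exp_le hT0).2 hT
    rw [div_le_iff₀ hδ] at h1
    rw [hD]; linarith
  have hD0 : 0 ≤ D := by linarith
  have rp : ∀ x : ℝ, T ^ (x * δ) = Real.exp (x * D) := by
    intro x
    rw [Real.rpow_def_of_pos hT0, hD]; congr 1; ring
  have rp1 : T ^ δ = Real.exp D := by
    have := rp 1
    simpa using this
  have hlen := eb_len D κ a a2 hD0 (JB D)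
  have hM₀ : ∀ j, KB' D j ≤ ⌊Real.exp (2 * D)⌋₊ := fun j => KB_le_M D j hD0
  refine ⟨NB D κ (JB D), eb D κ a a2 (JB D), JB D, ⌊Real.exp (2 * D)⌋₊, fun j => qb D a a2 j, fun j => wB κ j, ?_⟩
  constructor
  · rw [rp]
    exact NB_le D κ hD0 hκ (JB D)
  · intro n hn
    refine ⟨Nat.one_le_iff_ne_zero.2 (SP_eb D κ a a2 (JB D) n hn).1, ?_⟩
    by_contra h
    exact hn (hlen n (not_le.1 h))
  · rw [rp1]
    exact hEL' κ D a a2 _ le_rfl hD1 ha hlen
  · intro j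
    unfold wB
    positivity
  · intro j n hn
    refine ⟨Nat.one_le_iff_ne_zero.2 (SP_qb D a a2 j n hn).1, ?_⟩
    by_contra h
    exact hn (qb_len D a a2 j hD0 n (lt_of_le_of_lt (hM₀ j) (not_le.1 h)))
  · rw [rp 2]
    exact Nat.floor_le (Real.exp_pos _).le
  · intro t hne
    have h1 := up_bd hTE hd D κ hD1 hκ a a2 t _ hM₀ hne
    rw [rp1]
    have h2 := le_max_left (3 : ℝ) ((C₁ * A ^ 2 * (7 + 20 * κ)) ^ 3 * 600000)
    linarith
  · intro M f hM hMT hf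
    have hQM2 : ∀ (j K M : ℕ) (f : ℕ → ℂ), 1 ≤ M → KB' D j ≤ K → (∀ n, M < n → f n = 0) →
        N2 (K * M) (cv (qb D a a2 j) f) ≤ C₁ * A ^ 2 * (Real.exp (j : ℝ) * Real.log (K * M) / D) * N2 M f := by
      intro j K M f hM hK hf
      exact hQM' D A j K M a a2 f hD1 (by linarith) hM hK ha ha2 hf
    have hM' : (1 : ℝ) ≤ M := by exact_mod_cast hM
    have hM01 : 1 ≤ ⌊Real.exp (2 * D)⌋₊ := (KB_one D 0 hD0).trans (hM₀ 0)
    have hM01' : (1 : ℝ) ≤ (⌊Real.exp (2 * D)⌋₊ : ℝ) := by exact_mod_cast hM01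
    have hY : Real.log ((⌊Real.exp (2 * D)⌋₊ : ℝ) ^ 3 * M) ≤ (7 + 20 * κ) * D := by
      rw [Real.log_mul (by positivity) (by positivity), Real.log_pow]
      have h1 : Real.log (⌊Real.exp (2 * D)⌋₊ : ℝ) ≤ 2 * D := by
        rw [Real.log_le_iff_le_exp (by linarith)]
        exact Nat.floor_le (Real.exp_pos _).le
      have h2 : Real.log (M : ℝ) ≤ (1 + 20 * κ) * D := by
        rw [Real.log_le_iff_le_exp (by linarith), ← rp]
        exact hMT
      push_cast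
      linarith
    have h1 := mean_bd A C₁ D κ (7 + 20 * κ) hA hC₁ hD1 hκ a a2 hQM2 _ M hM₀ hM hY (by linarith) f hf (JB D)
    refine h1.trans ?_
    apply mul_le_mul_of_nonneg_right (le_max_right _ _)
    unfold N2
    positivity

end

end Pool.Agent.Q14.UM
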