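import Pool.Agent.Q14.UM.QM

set_option autoImplicit false

/-!
Project UM5 (helper97): job EL.
-/

namespace Pool.Agent.Q14.UM

open Filter Topology MeasureTheory Complex
open Pool.Agent.Q97.UM

noncomputable section

/-- value of a convolution of sequences with coprime supports -/
theorem cv_coprime (u v : ℕ → ℂ) (P : ℕ → Prop) (hu : ∀ n, u n ≠ 0 → n ≠ 0 ∧ ∀ p, p.Prime → p ∣ n → P p)
    (hv : ∀ n, v n ≠ 0 → n ≠ 0 ∧ ∀ p, p.Prime → p ∣ n → ¬ P p) (d e : ℕ) (hd : u d ≠ 0) (he : v e ≠ 0) :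
    cv u v (d * e) = u d * v e := by
  have cop : ∀ x y, u x ≠ 0 → v y ≠ 0 → Nat.Coprime x y := by
    intro x y hx hy
    apply Nat.Coprime.symm
    by_contra hc
    obtain ⟨p, hp, h1, h2⟩ := Nat.Prime.not_coprime_iff_dvd.1 hc
    exact (hv y hy).2 p hp h1 ((hu x hx).2 p hp h2)
  unfold cv
  have hd0 := (hu d hd).1
  have he0 := (hv e he).1
  rw [Finset.sum_eq_single (d, e)]
  · intro b hb hne
    by_contra h
    have hx : u b.1 ≠ 0 := left_ne_zero_of_mul h
    have hy : v b.2 ≠ 0 := right_ne_zero_of_mul h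
    rw [Nat.mem_divisorsAntidiagonal] at hb
    have h1 : b.1 ∣ d := by
      have : b.1 ∣ d * e := ⟨b.2, hb.1.symm⟩
      exact (cop _ _ hx he).dvd_of_dvd_mul_right this
    have h2 : d ∣ b.1 := by
      have : d ∣ b.1 * b.2 := ⟨e, hb.1⟩
      exact (cop _ _ hd hy).dvd_of_dvd_mul_right this
    have h3 : b.1 = d := Nat.dvd_antisymm h1 h2
    have h4 : b.2 = e := by
      have h5 := hb.1
      rw [h3] at h5
      exact Nat.eq_of_mul_eq_mul_left (Nat.pos_of_ne_zero hd0) h5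
    exact hne (Prod.ext h3 h4)
  · intro h
    exact absurd (Nat.mem_divisorsAntidiagonal.2 ⟨rfl, mul_ne_zero hd0 he0⟩) h

theorem N2_mul_le (u v : ℕ → ℂ) (P : ℕ → Prop) (hu : ∀ n, u n ≠ 0 → n ≠ 0 ∧ ∀ p, p.Prime → p ∣ n → P p)
    (hv : ∀ n, v n ≠ 0 → n ≠ 0 ∧ ∀ p, p.Prime → p ∣ n → ¬ P p) (X Y : ℕ) :
    N2 X u * N2 Y v ≤ N2 (X * Y) (cv u v) := by
  have cop : ∀ x y, u x ≠ 0 → v y ≠ 0 → Nat.Coprime x y := by
    intro x y hx hy
    apply Nat.Coprime.symm
    by_contra hc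
    obtain ⟨p, hp, h1, h2⟩ := Nat.Prime.not_coprime_iff_dvd.1 hc
    exact (hv y hy).2 p hp h1 ((hu x hx).2 p hp h2)
  obtain ⟨F, hF⟩ : ∃ F : Finset (ℕ × ℕ), F = (Finset.Icc 1 X ×ˢ Finset.Icc 1 Y).filter (fun z => u z.1 ≠ 0 ∧ v z.2 ≠ 0) := ⟨_, rfl⟩
  have h1 : N2 X u * N2 Y v = ∑ z ∈ F, ‖cv u v (z.1 * z.2)‖ ^ 2 / ((z.1 * z.2 : ℕ) : ℝ) := by
    unfold N2
    rw [Finset.sum_mul_sum, ← Finset.sum_product', hF, Finset.sum_filter]
    apply Finset.sum_congr rfl
    rintro ⟨d, e⟩ hz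
    simp only
    split_ifs with h
    · rw [cv_coprime u v P hu hv d e h.1 h.2, norm_mul]
      push_cast
      have hd0 : (d : ℝ) ≠ 0 := by exact_mod_cast (hu d h.1).1
      have he0 : (e : ℝ) ≠ 0 := by exact_mod_cast (hv e h.2).1
      field_simp
    · rw [not_and_or, not_not, not_not] at h
      rcases h with h | h
      · simp [h]
      · simp [h]
  rw [h1]
  have h2 : ∑ z ∈ F, ‖cv u v (z.1 * z.2)‖ ^ 2 / ((z.1 * z.2 : ℕ) : ℝ) =
      ∑ n ∈ F.image (fun z => z.1 * z.2), ‖cv u v n‖ ^ 2 / (n : ℝ) := by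
    rw [Finset.sum_image]
    rintro ⟨d, e⟩ hz ⟨d', e'⟩ hz' heq
    simp only [hF, Finset.coe_filter, Set.mem_ofPred_eq] at hz hz' heq
    have e1 : d ∣ d' := by
      have : d ∣ d' * e' := ⟨e, heq.symm⟩
      exact (cop _ _ hz.2.1 hz'.2.2).dvd_of_dvd_mul_right this
    have e2 : d' ∣ d := by
      have : d' ∣ d * e := ⟨e', heq⟩
      exact (cop _ _ hz'.2.1 hz.2.2).dvd_of_dvd_mul_right this
    have e3 : d = d' := Nat.dvd_antisymm e1 e2
    subst e3
    have e4 : e = e' := Nat.eq_of_mul_eq_mul_left (Nat.pos_of_ne_zero (hu d hz.2.1).1) heq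
    rw [e4]
  rw [h2]
  unfold N2
  apply Finset.sum_le_sum_of_subset_of_nonneg
  · intro n hn
    rw [Finset.mem_image] at hn
    obtain ⟨⟨d, e⟩, hz, rfl⟩ := hn
    simp only [hF, Finset.mem_filter, Finset.mem_product, Finset.mem_Icc] at hz ⊢
    obtain ⟨⟨⟨a1, a2⟩, ⟨b1, b2⟩⟩, _⟩ := hz
    exact ⟨Nat.one_le_iff_ne_zero.2 (mul_ne_zero (by omega) (by omega)), Nat.mul_le_mul a2 b2⟩
  · intro n _ _
    positivity

theorem N2_le_of_supp (b : ℕ → ℂ) (X N : ℕ) (h : ∀ n, N < n → b n = 0) : N2 X b ≤ N2 N b := by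
  unfold N2
  have h1 : ∑ n ∈ Finset.Icc 1 X, ‖b n‖ ^ 2 / (n : ℝ) = ∑ n ∈ (Finset.Icc 1 X).filter (fun n => n ≤ N), ‖b n‖ ^ 2 / (n : ℝ) := by
    rw [Finset.sum_filter]
    apply Finset.sum_congr rfl
    intro n _
    split_ifs with h2
    · rfl
    · rw [h n (by omega)]; simp
  rw [h1]
  apply Finset.sum_le_sum_of_subset_of_nonneg
  · intro n hn
    simp only [Finset.mem_filter, Finset.mem_Icc] at hn ⊢
    exact ⟨hn.1.1, hn.2⟩
  · intro n _ _
    positivity

/-! ### convolution powers on squarefree integers -/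

theorem prod_primes_dvd_iff (s : Finset ℕ) (hs : ∀ p ∈ s, p.Prime) (q : ℕ) (hq : q.Prime) : q ∣ ∏ p ∈ s, p ↔ q ∈ s := by
  constructor
  · intro h
    rw [Prime.dvd_finsetProd_iff hq.prime] at h
    obtain ⟨p, hp, h1⟩ := h
    rw [Nat.prime_dvd_prime_iff_eq hq (hs p hp)] at h1
    rw [h1]; exact hp
  · intro h
    exact Finset.dvd_prod_of_mem _ h

theorem squarefree_prod (s : Finset ℕ) (hs : ∀ p ∈ s, p.Prime) : Squarefree (∏ p ∈ s, p) := by
  rw [Nat.squarefree_iff_prime_squarefree]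
  intro q hq h
  have h0 : q ∣ ∏ p ∈ s, p := dvd_trans (Dvd.intro _ rfl) h
  have hqs : q ∈ s := (prod_primes_dvd_iff s hs q hq).1 h0
  rw [← Finset.mul_prod_erase s _ hqs] at h
  have h1 : q ∣ ∏ p ∈ s.erase q, p := Nat.dvd_of_mul_dvd_mul_left hq.pos h
  have h2 := (prod_primes_dvd_iff (s.erase q) (fun p hp => hs p (Finset.mem_of_mem_erase hp)) q hq).1 h1
  exact Finset.notMem_erase q s h2

theorem cvp_sqfree (q a : ℕ → ℂ) (P : Finset ℕ) (hP : ∀ p ∈ P, p.Prime) (h1 : ∀ p ∈ P, q p = a p)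
    (h2 : ∀ d, Squarefree d → q d ≠ 0 → d ∈ P) (r : ℕ) : ∀ s : Finset ℕ, s ⊆ P →
      cvp q r (∏ p ∈ s, p) = if s.card = r then (r.factorial : ℂ) * ∏ p ∈ s, a p else 0 := by
  induction r with
  | zero =>
    intro s hs
    unfold cvp
    by_cases h : s = ∅
    · subst h; simp
    · have h3 : ∏ p ∈ s, p ≠ 1 := by
        obtain ⟨p, hp⟩ := Finset.nonempty_iff_ne_empty.2 h
        intro h4
        have := Finset.dvd_prod_of_mem (fun p => p) hp
        rw [h4] at this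
        exact (hP p (hs hp)).one_lt.ne' (Nat.dvd_one.1 this)
      rw [if_neg h3, if_neg]
      rw [Finset.card_eq_zero]; exact h
  | succ r ih =>
    intro s hs
    have hsp : ∀ p ∈ s, p.Prime := fun p hp => hP p (hs hp)
    have hne : ∏ p ∈ s, p ≠ 0 := (squarefree_prod s hsp).ne_zero
    show cv q (cvp q r) (∏ p ∈ s, p) = _
    unfold cv
    rw [Nat.sum_divisorsAntidiagonal (fun d e => q d * cvp q r e)]
    have h3 : ∑ d ∈ (∏ p ∈ s, p).divisors, q d * cvp q r ((∏ p ∈ s, p) / d) =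
        ∑ d ∈ s, q d * cvp q r ((∏ p ∈ s, p) / d) := by
      symm
      apply Finset.sum_subset
      · intro p hp
        rw [Nat.mem_divisors]
        exact ⟨Finset.dvd_prod_of_mem _ hp, hne⟩
      · intro d hd hds
        rw [Nat.mem_divisors] at hd
        have : q d = 0 := by
          by_contra h4
          have h5 : d ∈ P := h2 d ((squarefree_prod s hsp).squarefree_of_dvd hd.1) h4
          exact hds ((prod_primes_dvd_iff s hsp d (hP d h5)).1 hd.1)
        rw [this, zero_mul]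
    rw [h3]
    have h4 : ∀ d ∈ s, q d * cvp q r ((∏ p ∈ s, p) / d) =
        if s.card = r + 1 then (r.factorial : ℂ) * ∏ p ∈ s, a p else 0 := by
      intro d hd
      have h5 : (∏ p ∈ s, p) / d = ∏ p ∈ s.erase d, p := by
        rw [← Finset.mul_prod_erase s _ hd]
        exact Nat.mul_div_cancel_left _ (hsp d hd).pos
      rw [h5, ih (s.erase d) ((Finset.erase_subset _ _).trans hs), h1 d (hs hd), Finset.card_erase_of_mem hd]
      have hc : 0 < s.card := Finset.card_pos.2 ⟨d, hd⟩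
      by_cases h6 : s.card = r + 1
      · rw [if_pos (by omega), if_pos h6, ← Finset.mul_prod_erase s a hd]; ring
      · rw [if_neg (by omega), if_neg h6, mul_zero]
    rw [Finset.sum_congr rfl h4, Finset.sum_const]
    by_cases h6 : s.card = r + 1
    · rw [if_pos h6, if_pos h6, h6, Nat.factorial_succ]
      push_cast
      rw [nsmul_eq_mul]
      push_cast
      ring
    · rw [if_neg h6, if_neg h6, smul_zero]

theorem te_sqfree (q a : ℕ → ℂ) (P : Finset ℕ) (hP : ∀ p ∈ P, p.Prime) (h1 : ∀ p ∈ P, q p = a p)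
    (h2 : ∀ d, Squarefree d → q d ≠ 0 → d ∈ P) (R : ℕ) (s : Finset ℕ) (hs : s ⊆ P) (hR : s.card ≤ R) :
      te q R (∏ p ∈ s, p) = ∏ p ∈ s, a p := by
  unfold te
  rw [Finset.sum_eq_single s.card]
  · rw [cvp_sqfree q a P hP h1 h2 s.card s hs, if_pos rfl]
    have : (s.card.factorial : ℂ) ≠ 0 := by exact_mod_cast Nat.factorial_ne_zero _
    field_simp
  · intro r _ hr
    rw [cvp_sqfree q a P hP h1 h2 r s hs, if_neg (fun h => hr h.symm), zero_div]
  · intro h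
    exact absurd (Finset.mem_range.2 (by omega)) h

theorem N2_te_ge (q a : ℕ → ℂ) (P : Finset ℕ) (hP : ∀ p ∈ P, p.Prime) (h1 : ∀ p ∈ P, q p = a p)
    (h2 : ∀ d, Squarefree d → q d ≠ 0 → d ∈ P) (R : ℕ) :
    ∑ s ∈ P.powerset.filter (fun s => s.card ≤ R), ∏ p ∈ s, (‖a p‖ ^ 2 / (p : ℝ)) ≤ N2 (∏ p ∈ P, p) (te q R) := by
  have h3 : ∑ s ∈ P.powerset.filter (fun s => s.card ≤ R), ∏ p ∈ s, (‖a p‖ ^ 2 / (p : ℝ)) =
      ∑ s ∈ P.powerset.filter (fun s => s.card ≤ R), ‖te q R (∏ p ∈ s, p)‖ ^ 2 / ((∏ p ∈ s, p : ℕ) : ℝ) := by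
    apply Finset.sum_congr rfl
    intro s hs
    rw [Finset.mem_filter, Finset.mem_powerset] at hs
    rw [te_sqfree q a P hP h1 h2 R s hs.1 hs.2, norm_prod, Finset.prod_div_distrib, Finset.prod_pow]
    push_cast
    rfl
  rw [h3]
  have h4 : ∑ s ∈ P.powerset.filter (fun s => s.card ≤ R), ‖te q R (∏ p ∈ s, p)‖ ^ 2 / ((∏ p ∈ s, p : ℕ) : ℝ) =
      ∑ n ∈ (P.powerset.filter (fun s => s.card ≤ R)).image (fun s => ∏ p ∈ s, p), ‖te q R n‖ ^ 2 / (n : ℝ) := by
    rw [Finset.sum_image]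
    intro s hs t ht hst
    simp only [Finset.coe_filter, Finset.mem_powerset, Set.mem_ofPred_eq] at hs ht hst
    ext p
    constructor
    · intro hp
      have hpp := hP p (hs.1 hp)
      rw [← prod_primes_dvd_iff t (fun x hx => hP x (ht.1 hx)) p hpp, ← hst,
        prod_primes_dvd_iff s (fun x hx => hP x (hs.1 hx)) p hpp]
      exact hp
    · intro hp
      have hpp := hP p (ht.1 hp)
      rw [← prod_primes_dvd_iff s (fun x hx => hP x (hs.1 hx)) p hpp, hst,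
        prod_primes_dvd_iff t (fun x hx => hP x (ht.1 hx)) p hpp]
      exact hp
  rw [h4]
  unfold N2
  apply Finset.sum_le_sum_of_subset_of_nonneg
  · intro n hn
    rw [Finset.mem_image] at hn
    obtain ⟨s, hs, rfl⟩ := hn
    rw [Finset.mem_filter, Finset.mem_powerset] at hs
    rw [Finset.mem_Icc]
    refine ⟨Nat.one_le_iff_ne_zero.2 (squarefree_prod s (fun x hx => hP x (hs.1 hx))).ne_zero, ?_⟩
    apply Nat.le_of_dvd (Nat.pos_of_ne_zero (squarefree_prod P hP).ne_zero)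
    exact Finset.prod_dvd_prod_of_subset _ _ _ hs.1
  · intro n _ _
    positivity

theorem sum_trunc (P : Finset ℕ) (x : ℕ → ℝ) (hx : ∀ p ∈ P, 0 ≤ x p) (R : ℕ) (S : ℝ) (hS : ∑ p ∈ P, x p ≤ S) :
    (1 - Real.exp (Real.exp 1 * S - R)) * Real.exp (∑ p ∈ P, x p - ∑ p ∈ P, x p ^ 2) ≤
      ∑ s ∈ P.powerset.filter (fun s => s.card ≤ R), ∏ p ∈ s, x p := by
  have hfull : ∑ s ∈ P.powerset, ∏ p ∈ s, x p = ∏ p ∈ P, (1 + x p) := (Finset.prod_one_add P).symm
  have hsplit : ∑ s ∈ P.powerset, ∏ p ∈ s, x p = ∑ s ∈ P.powerset.filter (fun s => s.card ≤ R), ∏ p ∈ s, x p +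
      ∑ s ∈ P.powerset.filter (fun s => ¬ s.card ≤ R), ∏ p ∈ s, x p := (Finset.sum_filter_add_sum_filter_not _ _ _).symm
  have htail : ∑ s ∈ P.powerset.filter (fun s => ¬ s.card ≤ R), ∏ p ∈ s, x p ≤ Real.exp (Real.exp 1 * S - R) := by
    have e1 : ∀ s ∈ P.powerset.filter (fun s => ¬ s.card ≤ R), ∏ p ∈ s, x p ≤ Real.exp (-(R : ℝ)) * ∏ p ∈ s, (Real.exp 1 * x p) := by
      intro s hs
      rw [Finset.mem_filter, Finset.mem_powerset] at hs
      rw [Finset.prod_mul_distrib, Finset.prod_const, ← mul_assoc]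
      have h0 : 0 ≤ ∏ p ∈ s, x p := Finset.prod_nonneg (fun p hp => hx p (hs.1 hp))
      have h1 : 1 ≤ Real.exp (-(R : ℝ)) * Real.exp 1 ^ s.card := by
        rw [← Real.exp_nat_mul, ← Real.exp_add]
        apply Real.one_le_exp
        have h3 : (R : ℝ) ≤ s.card := by exact_mod_cast (not_le.1 hs.2).le
        linarith
      nlinarith
    calc ∑ s ∈ P.powerset.filter (fun s => ¬ s.card ≤ R), ∏ p ∈ s, x p ≤
        ∑ s ∈ P.powerset.filter (fun s => ¬ s.card ≤ R), Real.exp (-(R : ℝ)) * ∏ p ∈ s, (Real.exp 1 * x p) := Finset.sum_le_sum e1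
      _ ≤ ∑ s ∈ P.powerset, Real.exp (-(R : ℝ)) * ∏ p ∈ s, (Real.exp 1 * x p) := by
          apply Finset.sum_le_sum_of_subset_of_nonneg (Finset.filter_subset _ _)
          intro s hs _
          rw [Finset.mem_powerset] at hs
          apply mul_nonneg (Real.exp_pos _).le
          apply Finset.prod_nonneg
          intro p hp
          exact mul_nonneg (Real.exp_pos _).le (hx p (hs hp))
      _ = Real.exp (-(R : ℝ)) * ∏ p ∈ P, (1 + Real.exp 1 * x p) := by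
          rw [← Finset.mul_sum, Finset.prod_one_add]
      _ ≤ Real.exp (-(R : ℝ)) * Real.exp (∑ p ∈ P, Real.exp 1 * x p) := by
          apply mul_le_mul_of_nonneg_left _ (Real.exp_pos _).le
          rw [Real.exp_sum]
          apply Finset.prod_le_prod
          · intro p hp
            have := mul_nonneg (Real.exp_pos 1).le (hx p hp)
            linarith
          · intro p _
            have := Real.add_one_le_exp (Real.exp 1 * x p)
            linarith
      _ ≤ Real.exp (Real.exp 1 * S - R) := by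
          rw [← Real.exp_add, ← Finset.mul_sum]
          apply Real.exp_le_exp.2
          have := mul_le_mul_of_nonneg_left hS (Real.exp_pos 1).le
          linarith
  have hmain : Real.exp (∑ p ∈ P, x p - ∑ p ∈ P, x p ^ 2) ≤ ∏ p ∈ P, (1 + x p) := by
    rw [← Finset.sum_sub_distrib, Real.exp_sum]
    apply Finset.prod_le_prod
    · intro p _
      exact (Real.exp_pos _).le
    · intro p hp
      have h0 := hx p hp
      have h1 : (0 : ℝ) < 1 + x p := by linarith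
      rw [← Real.le_log_iff_exp_le h1]
      have h2 := Real.one_sub_inv_le_log_of_pos h1
      have h3 : x p - x p ^ 2 ≤ 1 - (1 + x p)⁻¹ := by
        have h4 : 1 - (1 + x p)⁻¹ = x p / (1 + x p) := by field_simp; ring
        rw [h4, le_div_iff₀ h1]
        nlinarith [pow_nonneg h0 3]
      linarith
  have hone : 1 ≤ ∏ p ∈ P, (1 + x p) := by
    calc (1 : ℝ) = ∏ p ∈ P, (1 : ℝ) := by rw [Finset.prod_const_one]
      _ ≤ ∏ p ∈ P, (1 + x p) := by
          apply Finset.prod_le_prod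
          · intro p _; norm_num
          · intro p hp
            have := hx p hp
            linarith
  have hE : 0 < Real.exp (∑ p ∈ P, x p - ∑ p ∈ P, x p ^ 2) := Real.exp_pos _
  have ht : 0 < Real.exp (Real.exp 1 * S - R) := Real.exp_pos _
  rcases le_or_gt (Real.exp (Real.exp 1 * S - R)) 1 with h | h
  · have h5 : (1 - Real.exp (Real.exp 1 * S - R)) * Real.exp (∑ p ∈ P, x p - ∑ p ∈ P, x p ^ 2) ≤
        (1 - Real.exp (Real.exp 1 * S - R)) * ∏ p ∈ P, (1 + x p) := by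
      apply mul_le_mul_of_nonneg_left hmain (by linarith)
    nlinarith
  · have h5 : (1 - Real.exp (Real.exp 1 * S - R)) * Real.exp (∑ p ∈ P, x p - ∑ p ∈ P, x p ^ 2) ≤ 0 := by
      apply mul_nonpos_of_nonpos_of_nonneg (by linarith) hE.le
    have h6 : 0 ≤ ∑ s ∈ P.powerset.filter (fun s => s.card ≤ R), ∏ p ∈ s, x p := by
      apply Finset.sum_nonneg
      intro s hs
      rw [Finset.mem_filter, Finset.mem_powerset] at hs
      exact Finset.prod_nonneg (fun p hp => hx p (hs.1 hp))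
    linarith

/-! ### supports -/

/-- support condition: nonzero integers all of whose primes satisfy `P` -/
def SP (P : ℕ → Prop) (u : ℕ → ℂ) : Prop := ∀ n, u n ≠ 0 → n ≠ 0 ∧ ∀ p, p.Prime → p ∣ n → P p

theorem SP_cv (P : ℕ → Prop) (u v : ℕ → ℂ) (hu : SP P u) (hv : SP P v) : SP P (cv u v) := by
  intro n hn
  unfold cv at hn
  obtain ⟨b, hb, h⟩ := Finset.exists_ne_zero_of_sum_ne_zero hn
  rw [Nat.mem_divisorsAntidiagonal] at hb
  have h1 := hu b.1 (left_ne_zero_of_mul h)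
  have h2 := hv b.2 (right_ne_zero_of_mul h)
  refine ⟨hb.2, ?_⟩
  intro p hp hpn
  rw [← hb.1] at hpn
  rcases (Nat.Prime.dvd_mul hp).1 hpn with h3 | h3
  · exact h1.2 p hp h3
  · exact h2.2 p hp h3

theorem SP_one (P : ℕ → Prop) : SP P (fun n => if n = 1 then 1 else 0) := by
  intro n hn
  simp only [ne_eq, ite_eq_right_iff, one_ne_zero, imp_false, not_not] at hn
  subst hn
  refine ⟨one_ne_zero, ?_⟩
  intro p hp h
  exact absurd (Nat.dvd_one.1 h) hp.one_lt.ne'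

theorem SP_cvp (P : ℕ → Prop) (q : ℕ → ℂ) (hq : SP P q) (r : ℕ) : SP P (cvp q r) := by
  induction r with
  | zero => exact SP_one P
  | succ r ih => exact SP_cv P _ _ hq ih

theorem SP_te (P : ℕ → Prop) (q : ℕ → ℂ) (hq : SP P q) (R : ℕ) : SP P (te q R) := by
  intro n hn
  unfold te at hn
  obtain ⟨r, _, h⟩ := Finset.exists_ne_zero_of_sum_ne_zero hn
  apply SP_cvp P q hq r n
  intro h1
  rw [h1, zero_div] at h
  exact h rfl

theorem SP_qb (D : ℝ) (a a2 : ℕ → ℂ) (j : ℕ) : SP (fun p => p ∈ PB D j) (qb D a a2 j) := by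
  intro n hn
  have h := qb_supp D a a2 j n hn
  rw [Finset.mem_union, Finset.mem_image] at h
  rcases h with h | ⟨q, hq, rfl⟩
  · refine ⟨(mem_PB h).1.ne_zero, ?_⟩
    intro p hp hpn
    rw [Nat.prime_dvd_prime_iff_eq hp (mem_PB h).1] at hpn
    rw [hpn]; exact h
  · refine ⟨pow_ne_zero _ (mem_PB hq).1.ne_zero, ?_⟩
    intro p hp hpn
    have := hp.dvd_of_dvd_pow hpn
    rw [Nat.prime_dvd_prime_iff_eq hp (mem_PB hq).1] at this
    rw [this]; exact hq

theorem XB_anti (D : ℝ) (hD : 0 ≤ D) {i j : ℕ} (h : i ≤ j) : XB D j ≤ XB D i := by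
  unfold XB
  apply Real.exp_le_exp.2
  apply mul_le_mul_of_nonneg_left _ hD
  apply Real.exp_le_exp.2
  have : (i : ℝ) ≤ j := by exact_mod_cast h
  linarith

theorem PB_disj (D : ℝ) (hD : 0 ≤ D) {i j p : ℕ} (hi : p ∈ PB D i) (hj : p ∈ PB D j) : i = j := by
  rcases lt_trichotomy i j with h | h | h
  · exfalso
    have h1 := (mem_PB hi).2.1
    have h2 := (mem_PB hj).2.2
    have h3 := XB_anti D hD (i := i + 1) (j := j) h
    linarith
  · exact h
  · exfalso
    have h1 := (mem_PB hj).2.1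
    have h2 := (mem_PB hi).2.2
    have h3 := XB_anti D hD (i := j + 1) (j := i) h
    linarith

theorem SP_eb (D κ : ℝ) (a a2 : ℕ → ℂ) (J : ℕ) : SP (fun p => ∃ j < J, p ∈ PB D j) (eb D κ a a2 J) := by
  induction J with
  | zero => exact SP_one _
  | succ J ih =>
    apply SP_cv
    · intro n hn
      have := SP_te _ _ (SP_qb D a a2 J) (RB' κ J) n hn
      exact ⟨this.1, fun p hp hpn => ⟨J, Nat.lt_succ_self J, this.2 p hp hpn⟩⟩
    · intro n hn
      have := ih n hn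
      refine ⟨this.1, fun p hp hpn => ?_⟩
      obtain ⟨j, hj, h⟩ := this.2 p hp hpn
      exact ⟨j, hj.trans (Nat.lt_succ_self J), h⟩

theorem qb_sqfree (D : ℝ) (a a2 : ℕ → ℂ) (j d : ℕ) (hd : Squarefree d) (h : qb D a a2 j d ≠ 0) : d ∈ PB D j := by
  have h1 := qb_supp D a a2 j d h
  rw [Finset.mem_union, Finset.mem_image] at h1
  rcases h1 with h1 | ⟨q, hq, rfl⟩
  · exact h1
  · exfalso
    have h2 := (mem_PB hq).1
    have h3 := hd q (by rw [pow_two])
    exact h2.one_lt.ne' (Nat.isUnit_iff.1 h3)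

/-- lower bound for the partial products -/
theorem N2_eb_ge (D κ A C : ℝ) (a a2 : ℕ → ℂ) (hD : 1 ≤ D) (hC : ∀ j, ∑ p ∈ PB D j, (1 : ℝ) / p ≤ C)
    (ha : ∀ n, ‖a n‖ ≤ A) (hR : ∀ j, Real.exp (Real.exp 1 * (A ^ 2 * C) - RB' κ j) ≤ 1) (J : ℕ) : ∃ X : ℕ,
    ∏ j ∈ Finset.range J, ((1 - Real.exp (Real.exp 1 * (A ^ 2 * C) - RB' κ j)) *
      Real.exp (∑ p ∈ PB D j, ‖a p‖ ^ 2 / p - ∑ p ∈ PB D j, (‖a p‖ ^ 2 / p) ^ 2)) ≤ N2 X (eb D κ a a2 J) := by
  induction J with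
  | zero =>
    refine ⟨1, ?_⟩
    unfold N2 eb
    simp
  | succ J ih =>
    obtain ⟨X, hX⟩ := ih
    refine ⟨(∏ p ∈ PB D J, p) * X, ?_⟩
    rw [Finset.prod_range_succ, mul_comm]
    have h1 := N2_te_ge (qb D a a2 J) a (PB D J) (fun p hp => (mem_PB hp).1) (fun p hp => qb_prime D a a2 J p hp)
      (fun d hd h => qb_sqfree D a a2 J d hd h) (RB' κ J)
    have hS : ∑ p ∈ PB D J, ‖a p‖ ^ 2 / (p : ℝ) ≤ A ^ 2 * C := by
      calc ∑ p ∈ PB D J, ‖a p‖ ^ 2 / (p : ℝ) ≤ ∑ p ∈ PB D J, A ^ 2 * (1 / (p : ℝ)) := by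
            apply Finset.sum_le_sum
            intro p _
            rw [mul_one_div]
            have := ha p
            gcongr
        _ = A ^ 2 * ∑ p ∈ PB D J, 1 / (p : ℝ) := by rw [Finset.mul_sum]
        _ ≤ A ^ 2 * C := mul_le_mul_of_nonneg_left (hC J) (by positivity)
    have h2 := sum_trunc (PB D J) (fun p => ‖a p‖ ^ 2 / (p : ℝ)) (fun p _ => by positivity) (RB' κ J) (A ^ 2 * C) hS
    have h3 := h2.trans h1
    have h4 : N2 (∏ p ∈ PB D J, p) (te (qb D a a2 J) (RB' κ J)) * N2 X (eb D κ a a2 J) ≤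
        N2 ((∏ p ∈ PB D J, p) * X) (eb D κ a a2 (J + 1)) := by
      apply N2_mul_le _ _ (fun p => p ∈ PB D J)
      · exact SP_te _ _ (SP_qb D a a2 J) (RB' κ J)
      · intro n hn
        have := SP_eb D κ a a2 J n hn
        refine ⟨this.1, fun p hp hpn hpJ => ?_⟩
        obtain ⟨j, hj, h⟩ := this.2 p hp hpn
        exact hj.ne (PB_disj D (by linarith) h hpJ)
    refine le_trans ?_ h4
    apply mul_le_mul h3 hX
    · apply Finset.prod_nonneg
      intro j _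
      apply mul_nonneg _ (Real.exp_pos _).le
      have := hR j
      linarith
    · unfold N2
      positivity

theorem PB_union (D : ℝ) (hD : 1 ≤ D) : (Finset.Icc 1 ⌊Real.exp D⌋₊).filter Nat.Prime = (Finset.range (JB D)).biUnion (fun j => PB D j) := by
  have hXJ : XB D (JB D) < 2 := by
    unfold XB JB
    have h1 : Real.log (2 * D) ≤ (⌈Real.log (2 * D)⌉₊ : ℝ) := Nat.le_ceil _
    have h2 : D * Real.exp (-(⌈Real.log (2 * D)⌉₊ : ℝ)) ≤ 1 / 2 := by
      have h3 : Real.exp (-(⌈Real.log (2 * D)⌉₊ : ℝ)) ≤ Real.exp (-(Real.log (2 * D))) := by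
        apply Real.exp_le_exp.2
        linarith
      rw [Real.exp_neg (Real.log (2 * D)), Real.exp_log (by linarith)] at h3
      calc D * Real.exp (-(⌈Real.log (2 * D)⌉₊ : ℝ)) ≤ D * (2 * D)⁻¹ := by
            apply mul_le_mul_of_nonneg_left h3 (by linarith)
        _ = 1 / 2 := by field_simp
    calc Real.exp (D * Real.exp (-(⌈Real.log (2 * D)⌉₊ : ℝ))) ≤ Real.exp (1 / 2) := Real.exp_le_exp.2 h2
      _ < 2 := by
        have h4 : Real.exp (1 / 2) * Real.exp (1 / 2) = Real.exp 1 := by rw [← Real.exp_add]; norm_num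
        have h5 := Real.exp_one_lt_d9
        have h6 := Real.exp_pos (1 / 2 : ℝ)
        nlinarith
  ext p
  simp only [Finset.mem_filter, Finset.mem_Icc, Finset.mem_biUnion, Finset.mem_range]
  constructor
  · rintro ⟨⟨h1, h2⟩, hp⟩
    have h3 : (p : ℝ) ≤ XB D 0 := by
      unfold XB
      simp only [Nat.cast_zero, neg_zero, Real.exp_zero, mul_one]
      exact (Nat.le_floor_iff (Real.exp_pos D).le).1 h2
    have hex : ∃ j : ℕ, XB D (j + 1) < p := by
      rcases Nat.eq_zero_or_pos (JB D) with h0 | h0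
      · exfalso
        rw [h0] at hXJ
        have : (2 : ℝ) ≤ p := by exact_mod_cast hp.two_le
        linarith
      · refine ⟨JB D - 1, ?_⟩
        rw [Nat.sub_add_cancel h0]
        have : (2 : ℝ) ≤ p := by exact_mod_cast hp.two_le
        linarith
    classical
    refine ⟨Nat.find hex, ?_, ?_⟩
    · have h0 : 0 < JB D := by
        rcases Nat.eq_zero_or_pos (JB D) with h0 | h0
        · exfalso
          rw [h0] at hXJ
          have : (2 : ℝ) ≤ p := by exact_mod_cast hp.two_le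
          linarith
        · exact h0
      have : Nat.find hex ≤ JB D - 1 := by
        apply Nat.find_min'
        rw [Nat.sub_add_cancel h0]
        have : (2 : ℝ) ≤ p := by exact_mod_cast hp.two_le
        linarith
      omega
    · unfold PB
      rw [Finset.mem_filter, Finset.mem_Icc]
      refine ⟨⟨h1, ?_⟩, hp, Nat.find_spec hex⟩
      rw [Nat.le_floor_iff (XB_pos D _).le]
      rcases Nat.eq_zero_or_pos (Nat.find hex) with h0 | h0
      · rw [h0]; exact h3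
      · have h4 := Nat.find_min hex (m := Nat.find hex - 1) (by omega)
        rw [Nat.sub_add_cancel h0] at h4
        exact not_lt.1 h4
  · rintro ⟨j, hj, hp⟩
    have h1 := mem_PB hp
    refine ⟨⟨h1.1.one_lt.le, ?_⟩, h1.1⟩
    rw [Nat.le_floor_iff (Real.exp_pos D).le]
    refine h1.2.2.trans ?_
    refine (XB_anti D (by linarith) (Nat.zero_le j)).trans ?_
    unfold XB
    simp

theorem sum_inv_sq' (X : ℕ) : ∑ n ∈ Finset.Icc 1 (X + 1), (1 : ℝ) / (n : ℝ) ^ 2 ≤ 2 - 1 / (X + 1) := by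
  induction X with
  | zero => simp; norm_num
  | succ X ih =>
    rw [Finset.sum_Icc_succ_top (by omega)]
    have h0 : (0 : ℝ) < (X : ℝ) + 1 := by positivity
    have h1 : (1 : ℝ) / ((X + 1 + 1 : ℕ) : ℝ) ^ 2 ≤ 1 / (X + 1 : ℝ) - 1 / (((X + 1 : ℕ) : ℝ) + 1) := by
      push_cast
      rw [div_sub_div _ _ (by positivity) (by positivity), div_le_div_iff₀ (by positivity) (by positivity)]
      nlinarith
    linarith

theorem sum_inv_sq (X : ℕ) : ∑ n ∈ Finset.Icc 1 X, (1 : ℝ) / (n : ℝ) ^ 2 ≤ 2 := by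
  have h1 := sum_inv_sq' X
  have h2 : ∑ n ∈ Finset.Icc 1 X, (1 : ℝ) / (n : ℝ) ^ 2 ≤ ∑ n ∈ Finset.Icc 1 (X + 1), (1 : ℝ) / (n : ℝ) ^ 2 := by
    apply Finset.sum_le_sum_of_subset_of_nonneg
    · apply Finset.Icc_subset_Icc_right; omega
    · intro n _ _; positivity
  have h3 : (0 : ℝ) ≤ 1 / ((X : ℝ) + 1) := by positivity
  linarith

theorem prod_one_sub_ge (J : ℕ) (t : ℕ → ℝ) (h0 : ∀ j, 0 ≤ t j) (h1 : ∀ j, t j ≤ 1) :
    1 - ∑ j ∈ Finset.range J, t j ≤ ∏ j ∈ Finset.range J, (1 - t j) := by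
  have h2 : ∀ J : ℕ, 0 ≤ ∏ j ∈ Finset.range J, (1 - t j) ∧ ∏ j ∈ Finset.range J, (1 - t j) ≤ 1 := by
    intro J
    constructor
    · exact Finset.prod_nonneg (fun j _ => by linarith [h1 j])
    · apply Finset.prod_le_one
      · intro j _; linarith [h1 j]
      · intro j _; linarith [h0 j]
  induction J with
  | zero => simp
  | succ J ih =>
    rw [Finset.sum_range_succ, Finset.prod_range_succ]
    have h3 := (h2 J).1
    have h4 := (h2 J).2
    nlinarith [h0 J, h1 J]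

theorem t_EL : S_EL := by
  rintro ⟨C, hC1, hC⟩ A hA
  refine ⟨2 * (Real.exp 1 * (A ^ 2 * C)) + 4, 1 / 2 * Real.exp (-(2 * A ^ 4)), ?_, by positivity, ?_⟩
  · have : 0 ≤ Real.exp 1 * (A ^ 2 * C) := by positivity
    linarith
  intro κ D a a2 N hκ hD ha hN
  have hW : 0 ≤ Real.exp 1 * (A ^ 2 * C) := by positivity
  have ht : ∀ j : ℕ, Real.exp (Real.exp 1 * (A ^ 2 * C) - RB' κ j) ≤ 1 / 4 * (1 / 2) ^ j := by
    intro j
    have h1 : κ * Real.exp (3 / 4 * (j : ℝ)) ≤ RB' κ j := Nat.le_ceil _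
    have h2 : 1 + 3 / 4 * (j : ℝ) ≤ Real.exp (3 / 4 * (j : ℝ)) := by
      have := Real.add_one_le_exp (3 / 4 * (j : ℝ))
      linarith
    have hj : (0 : ℝ) ≤ j := Nat.cast_nonneg j
    have h3 : Real.exp 1 * (A ^ 2 * C) - RB' κ j ≤ -2 - (3 / 2) * (j : ℝ) := by
      have h4 : κ * (1 + 3 / 4 * (j : ℝ)) ≤ κ * Real.exp (3 / 4 * (j : ℝ)) := by
        apply mul_le_mul_of_nonneg_left h2 (by linarith)
      nlinarith
    have h5 : Real.exp (Real.exp 1 * (A ^ 2 * C) - RB' κ j) ≤ Real.exp (-2 - (3 / 2) * (j : ℝ)) := Real.exp_le_exp.2 h3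
    have h6 : Real.exp (-2 - (3 / 2) * (j : ℝ)) = Real.exp (-2) * (Real.exp (-(3 / 2))) ^ j := by
      rw [← Real.exp_nat_mul, ← Real.exp_add]; congr 1; ring
    have h7 : Real.exp (-2) ≤ 1 / 4 := by
      have e1 : Real.exp (-2) * Real.exp 2 = 1 := by rw [← Real.exp_add]; simp
      have e2 : (4 : ℝ) ≤ Real.exp 2 := by
        have e3 : Real.exp 2 = Real.exp 1 * Real.exp 1 := by rw [← Real.exp_add]; norm_num
        have e4 := Real.add_one_le_exp (1 : ℝ)
        nlinarith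
      have e5 := Real.exp_pos (-2 : ℝ)
      nlinarith
    have h8 : Real.exp (-(3 / 2)) ≤ 1 / 2 := by
      have e1 : Real.exp (-(3 / 2)) * Real.exp (3 / 2) = 1 := by rw [← Real.exp_add]; simp
      have e2 : (2 : ℝ) ≤ Real.exp (3 / 2) := by
        have e4 := Real.add_one_le_exp (3 / 2 : ℝ)
        linarith
      have e5 := Real.exp_pos (-(3 / 2) : ℝ)
      nlinarith
    rw [h6] at h5
    refine h5.trans ?_
    apply mul_le_mul h7
    · exact pow_le_pow_left₀ (Real.exp_pos _).le h8 j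
    · positivity
    · norm_num
  have ht1 : ∀ j : ℕ, Real.exp (Real.exp 1 * (A ^ 2 * C) - RB' κ j) ≤ 1 := by
    intro j
    refine (ht j).trans ?_
    have : ((1 : ℝ) / 2) ^ j ≤ 1 := pow_le_one₀ (by norm_num) (by norm_num)
    linarith
  obtain ⟨X, hX⟩ := N2_eb_ge D κ A C a a2 hD (fun j => hC D j hD) ha ht1 (JB D)
  refine le_trans ?_ (hX.trans (N2_le_of_supp _ X N hN))
  rw [Finset.prod_mul_distrib]
  have h1 := prod_one_sub_ge (JB D) (fun j => Real.exp (Real.exp 1 * (A ^ 2 * C) - RB' κ j)) (fun j => (Real.exp_pos _).le) ht1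
  have h2 : ∑ j ∈ Finset.range (JB D), Real.exp (Real.exp 1 * (A ^ 2 * C) - RB' κ j) ≤ 1 / 2 := by
    calc ∑ j ∈ Finset.range (JB D), Real.exp (Real.exp 1 * (A ^ 2 * C) - RB' κ j) ≤
        ∑ j ∈ Finset.range (JB D), 1 / 4 * ((1 : ℝ) / 2) ^ j := Finset.sum_le_sum (fun j _ => ht j)
      _ = 1 / 4 * ∑ j ∈ Finset.range (JB D), ((1 : ℝ) / 2) ^ j := by rw [Finset.mul_sum]
      _ ≤ 1 / 4 * 2 := by
          apply mul_le_mul_of_nonneg_left _ (by norm_num)
          have := sum_geometric_two_le (JB D)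
          simpa using this
      _ = 1 / 2 := by norm_num
  have h3 : (1 : ℝ) / 2 ≤ ∏ j ∈ Finset.range (JB D), (1 - Real.exp (Real.exp 1 * (A ^ 2 * C) - RB' κ j)) := by linarith
  have h4 : Real.exp (-(2 * A ^ 4)) * Real.exp (∑ p ∈ (Finset.Icc 1 ⌊Real.exp D⌋₊).filter Nat.Prime, ‖a p‖ ^ 2 / p) ≤
      ∏ j ∈ Finset.range (JB D), Real.exp (∑ p ∈ PB D j, ‖a p‖ ^ 2 / p - ∑ p ∈ PB D j, (‖a p‖ ^ 2 / p) ^ 2) := by
    rw [← Real.exp_add, ← Real.exp_sum, Real.exp_le_exp]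
    have h5 : ∑ j ∈ Finset.range (JB D), (∑ p ∈ PB D j, ‖a p‖ ^ 2 / (p : ℝ) - ∑ p ∈ PB D j, (‖a p‖ ^ 2 / (p : ℝ)) ^ 2) =
        ∑ p ∈ (Finset.Icc 1 ⌊Real.exp D⌋₊).filter Nat.Prime, (‖a p‖ ^ 2 / (p : ℝ) - (‖a p‖ ^ 2 / (p : ℝ)) ^ 2) := by
      rw [PB_union D hD, Finset.sum_biUnion]
      · apply Finset.sum_congr rfl
        intro j _
        rw [Finset.sum_sub_distrib]
      · intro i _ j _ hij
        rw [Function.onFun, Finset.disjoint_left]
        intro p hp hp'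
        exact hij (PB_disj D (by linarith) hp hp')
    rw [h5, Finset.sum_sub_distrib]
    have h6 : ∑ p ∈ (Finset.Icc 1 ⌊Real.exp D⌋₊).filter Nat.Prime, (‖a p‖ ^ 2 / (p : ℝ)) ^ 2 ≤ 2 * A ^ 4 := by
      calc ∑ p ∈ (Finset.Icc 1 ⌊Real.exp D⌋₊).filter Nat.Prime, (‖a p‖ ^ 2 / (p : ℝ)) ^ 2 ≤
          ∑ p ∈ Finset.Icc 1 ⌊Real.exp D⌋₊, (‖a p‖ ^ 2 / (p : ℝ)) ^ 2 := by
            apply Finset.sum_le_sum_of_subset_of_nonneg (Finset.filter_subset _ _)
            intro p _ _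
            positivity
        _ ≤ ∑ p ∈ Finset.Icc 1 ⌊Real.exp D⌋₊, A ^ 4 * (1 / (p : ℝ) ^ 2) := by
            apply Finset.sum_le_sum
            intro p _
            rw [div_pow, mul_one_div]
            have h7 := ha p
            have h8 : (‖a p‖ ^ 2) ^ 2 ≤ A ^ 4 := by
              rw [← pow_mul]
              exact pow_le_pow_left₀ (norm_nonneg _) h7 4
            gcongr
        _ = A ^ 4 * ∑ p ∈ Finset.Icc 1 ⌊Real.exp D⌋₊, (1 / (p : ℝ) ^ 2) := by rw [Finset.mul_sum]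
        _ ≤ A ^ 4 * 2 := mul_le_mul_of_nonneg_left (sum_inv_sq _) (by positivity)
        _ = 2 * A ^ 4 := by ring
    linarith
  have h9 : 0 ≤ Real.exp (-(2 * A ^ 4)) * Real.exp (∑ p ∈ (Finset.Icc 1 ⌊Real.exp D⌋₊).filter Nat.Prime, ‖a p‖ ^ 2 / p) := by
    positivity
  calc 1 / 2 * Real.exp (-(2 * A ^ 4)) * Real.exp (∑ p ∈ (Finset.Icc 1 ⌊Real.exp D⌋₊).filter Nat.Prime, ‖a p‖ ^ 2 / p) =
      1 / 2 * (Real.exp (-(2 * A ^ 4)) * Real.exp (∑ p ∈ (Finset.Icc 1 ⌊Real.exp D⌋₊).filter Nat.Prime, ‖a p‖ ^ 2 / p)) := by ring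
    _ ≤ _ := by
      apply mul_le_mul h3 h4 h9
      linarith

end

end Pool.Agent.Q14.UM
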