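import Pool.Agent.Q97.UM.Stm12

set_option autoImplicit false

/-!
Project UM5 (helper97): jobs TE, QM.
-/

namespace Pool.Agent.Q14.UM

open Filter Topology MeasureTheory Complex
open Pool.Agent.Q97.UM

noncomputable section

theorem t_TE : S_TE := by
  intro R z hR hne
  have hR0 : (0 : ℝ) < R := by exact_mod_cast hR
  have hR1 : (1 : ℝ) ≤ R := by exact_mod_cast hR
  obtain ⟨E, hE⟩ : ∃ E : ℂ, E = ∑ r ∈ Finset.range (R + 1), z ^ r / (r.factorial : ℂ) := ⟨_, rfl⟩
  rw [← hE] at hne ⊢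
  have hz0 : 0 ≤ ‖z‖ := norm_nonneg z
  have hre : -‖z‖ ≤ z.re := by
    have := Complex.abs_re_le_norm z
    exact (abs_le.1 this).1
  rcases le_or_gt ‖z‖ ((R : ℝ) / 10) with h | h
  · -- small case
    have hb : ‖Complex.exp z - E‖ ≤ ‖z‖ ^ (R + 1) / ((R + 1).factorial : ℝ) * 2 := by
      rw [hE]
      apply Complex.exp_bound'
      rw [div_le_iff₀ (by positivity)]
      push_cast
      linarith
    have hfac : ((R : ℝ) + 1) ^ (R + 1) / ((R + 1).factorial : ℝ) ≤ Real.exp ((R : ℝ) + 1) := by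
      have := Real.pow_div_factorial_le_exp ((R : ℝ) + 1) (by positivity) (R + 1)
      exact this
    have hfp : (0 : ℝ) < ((R + 1).factorial : ℝ) := by positivity
    have h1 : ‖z‖ ^ (R + 1) / ((R + 1).factorial : ℝ) ≤ (1 / 10) ^ (R + 1) * Real.exp ((R : ℝ) + 1) := by
      have h2 : ‖z‖ ^ (R + 1) ≤ (1 / 10) ^ (R + 1) * ((R : ℝ) + 1) ^ (R + 1) := by
        rw [← mul_pow]
        apply pow_le_pow_left₀ hz0
        linarith
      calc ‖z‖ ^ (R + 1) / ((R + 1).factorial : ℝ) ≤ ((1 / 10) ^ (R + 1) * ((R : ℝ) + 1) ^ (R + 1)) / ((R + 1).factorial : ℝ) := by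
            gcongr
        _ = (1 / 10) ^ (R + 1) * (((R : ℝ) + 1) ^ (R + 1) / ((R + 1).factorial : ℝ)) := by ring
        _ ≤ (1 / 10) ^ (R + 1) * Real.exp ((R : ℝ) + 1) := by gcongr
    have h3 : ‖E * Complex.exp (-z) - 1‖ ≤ Real.exp (-(R : ℝ)) := by
      have h4 : E * Complex.exp (-z) - 1 = -(Complex.exp z - E) * Complex.exp (-z) := by
        have : Complex.exp z * Complex.exp (-z) = 1 := by rw [← Complex.exp_add]; simp
        linear_combination this
      rw [h4, norm_mul, norm_neg, Complex.norm_exp]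
      have h5 : Real.exp ((-z).re) ≤ Real.exp ((R : ℝ) / 10) := by
        apply Real.exp_le_exp.2
        simp only [Complex.neg_re]
        linarith
      have h6 : (1 / 10 : ℝ) ^ (R + 1) * Real.exp ((R : ℝ) + 1) * 2 * Real.exp ((R : ℝ) / 10) ≤ Real.exp (-(R : ℝ)) := by
        have e1 : Real.exp 1 < 2.7182818286 := Real.exp_one_lt_d9
        have e2 : Real.exp ((R : ℝ) + 1) = Real.exp 1 ^ R * Real.exp 1 := by
          rw [← Real.exp_nat_mul, ← Real.exp_add]; congr 1; ring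
        have e3 : Real.exp (-(R : ℝ)) = (Real.exp (-1)) ^ R := by
          rw [← Real.exp_nat_mul]; congr 1; ring
        have e4 : Real.exp ((R : ℝ) / 10) = (Real.exp (1 / 10)) ^ R := by
          rw [← Real.exp_nat_mul]; congr 1; ring
        rw [e2, e3, e4]
        have e5 : Real.exp (1 / 10) ≤ 1.2 := by
          have := Real.exp_bound_div_one_sub_of_interval (x := 1 / 10) (by norm_num) (by norm_num)
          refine this.trans ?_
          norm_num
        have e6 : (1 / 10 : ℝ) * Real.exp 1 * Real.exp (1 / 10) ≤ Real.exp (-1) := by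
          have e7 : Real.exp (-1) * Real.exp 1 = 1 := by rw [← Real.exp_add]; simp
          have e8 : 0 < Real.exp 1 := Real.exp_pos 1
          have e9 : 0 < Real.exp (-1) := Real.exp_pos _
          have e10 : (1 / 10 : ℝ) * Real.exp 1 * Real.exp (1 / 10) * Real.exp 1 ≤ Real.exp (-1) * Real.exp 1 := by
            rw [e7]
            nlinarith [mul_pos e8 e8, Real.exp_pos (1 / 10 : ℝ)]
          exact le_of_mul_le_mul_right e10 e8
        calc (1 / 10 : ℝ) ^ (R + 1) * (Real.exp 1 ^ R * Real.exp 1) * 2 * (Real.exp (1 / 10)) ^ R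
            = ((1 / 10 : ℝ) * Real.exp 1 * Real.exp (1 / 10)) ^ R * (Real.exp 1 / 5) := by
              rw [mul_pow, mul_pow, pow_succ]; ring
          _ ≤ (Real.exp (-1)) ^ R * 1 := by
              apply mul_le_mul
              · exact pow_le_pow_left₀ (by positivity) e6 R
              · linarith
              · positivity
              · positivity
          _ = (Real.exp (-1)) ^ R := by ring
      calc ‖Complex.exp z - E‖ * Real.exp ((-z).re) ≤ (‖z‖ ^ (R + 1) / ((R + 1).factorial : ℝ) * 2) * Real.exp ((R : ℝ) / 10) := by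
            apply mul_le_mul hb h5 (Real.exp_pos _).le (by positivity)
        _ ≤ ((1 / 10) ^ (R + 1) * Real.exp ((R : ℝ) + 1) * 2) * Real.exp ((R : ℝ) / 10) := by gcongr
        _ ≤ _ := h6
    have h7 : ‖E * Complex.exp (-z)‖ ≤ 1 + Real.exp (-(R : ℝ)) := by
      calc ‖E * Complex.exp (-z)‖ = ‖(E * Complex.exp (-z) - 1) + 1‖ := by ring_nf
        _ ≤ ‖E * Complex.exp (-z) - 1‖ + ‖(1 : ℂ)‖ := norm_add_le _ _
        _ ≤ 1 + Real.exp (-(R : ℝ)) := by rw [norm_one]; linarith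
    have h8 : ‖E‖ ≤ Real.exp (z.re + Real.exp (-(R : ℝ))) := by
      have h9 : ‖E‖ = ‖E * Complex.exp (-z)‖ * Real.exp z.re := by
        rw [norm_mul, Complex.norm_exp, mul_assoc, ← Real.exp_add]
        simp
      rw [h9, Real.exp_add, mul_comm]
      gcongr
      refine h7.trans ?_
      have := Real.add_one_le_exp (Real.exp (-(R : ℝ)))
      linarith
    have h10 : Real.log ‖E‖ ≤ z.re + Real.exp (-(R : ℝ)) := by
      rw [Real.log_le_iff_le_exp (norm_pos_iff.2 hne)]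
      exact h8
    have h11 : 0 ≤ 2 * (10 / (R : ℝ)) ^ 5 * ‖z‖ ^ 6 := by positivity
    linarith
  · have h1 : ‖E‖ ≤ Real.exp ‖z‖ := by
      rw [hE]
      calc ‖∑ r ∈ Finset.range (R + 1), z ^ r / (r.factorial : ℂ)‖ ≤ ∑ r ∈ Finset.range (R + 1), ‖z ^ r / (r.factorial : ℂ)‖ := norm_sum_le _ _
        _ = ∑ r ∈ Finset.range (R + 1), ‖z‖ ^ r / (r.factorial : ℝ) := by
            apply Finset.sum_congr rfl; intro r _; rw [norm_div, norm_pow, Complex.norm_natCast]
        _ ≤ Real.exp ‖z‖ := Real.sum_le_exp_of_nonneg hz0 _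
    have h2 : Real.log ‖E‖ ≤ ‖z‖ := by
      rw [Real.log_le_iff_le_exp (norm_pos_iff.2 hne)]
      exact h1
    have h3 : 1 ≤ 10 / (R : ℝ) * ‖z‖ := by
      rw [div_mul_eq_mul_div, le_div_iff₀ hR0]; linarith
    have h4 : 2 * ‖z‖ ≤ 2 * (10 / (R : ℝ)) ^ 5 * ‖z‖ ^ 6 := by
      have : 2 * (10 / (R : ℝ)) ^ 5 * ‖z‖ ^ 6 = 2 * ‖z‖ * (10 / (R : ℝ) * ‖z‖) ^ 5 := by ring
      rw [this]
      have h5 : 1 ≤ (10 / (R : ℝ) * ‖z‖) ^ 5 := one_le_pow₀ h3
      nlinarith
    have h6 := Real.exp_pos (-(R : ℝ))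
    linarith

theorem cv_filter (q f : ℕ → ℂ) (S : Finset ℕ) (hS : ∀ n, q n ≠ 0 → n ∈ S) (k : ℕ) (hk : k ≠ 0) :
    cv q f k = ∑ s ∈ S.filter (fun s => s ∣ k), q s * f (k / s) := by
  unfold cv
  rw [Nat.sum_divisorsAntidiagonal (fun d e => q d * f e)]
  have h1 : S.filter (fun s => s ∣ k) = (k.divisors).filter (fun s => s ∈ S) := by
    ext s
    simp only [Finset.mem_filter, Nat.mem_divisors]
    tauto
  rw [h1, Finset.sum_filter]
  apply Finset.sum_congr rfl
  intro d _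
  split_ifs with h
  · rfl
  · have : q d = 0 := by
      by_contra h2
      exact h (hS d h2)
    rw [this, zero_mul]

theorem sum_mult (s X M : ℕ) (hs : 1 ≤ s) (g : ℕ → ℝ) (hg : ∀ n, 0 ≤ g n) (hM : ∀ n, M < n → g n = 0) :
    ∑ k ∈ (Finset.Icc 1 X).filter (fun k => s ∣ k), g (k / s) / (k : ℝ) ≤ (1 / (s : ℝ)) * ∑ m ∈ Finset.Icc 1 M, g m / m := by
  have hs0 : (0 : ℝ) < s := by exact_mod_cast hs
  have h1 : ∑ k ∈ (Finset.Icc 1 X).filter (fun k => s ∣ k), g (k / s) / (k : ℝ) =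
      ∑ k ∈ (Finset.Icc 1 X).filter (fun k => s ∣ k), (1 / (s : ℝ)) * (g (k / s) / ((k / s : ℕ) : ℝ)) := by
    apply Finset.sum_congr rfl
    intro k hk
    rw [Finset.mem_filter] at hk
    obtain ⟨m, rfl⟩ := hk.2
    rw [Nat.mul_div_cancel_left m hs]
    push_cast
    by_cases hm : m = 0
    · subst hm; simp
    · have : (m : ℝ) ≠ 0 := by exact_mod_cast hm
      field_simp
  rw [h1, ← Finset.mul_sum]
  apply mul_le_mul_of_nonneg_left _ (by positivity)
  have h2 : ∑ k ∈ (Finset.Icc 1 X).filter (fun k => s ∣ k), g (k / s) / ((k / s : ℕ) : ℝ) =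
      ∑ m ∈ ((Finset.Icc 1 X).filter (fun k => s ∣ k)).image (fun k => k / s), g m / (m : ℝ) := by
    rw [Finset.sum_image]
    intro x hx y hy hxy
    simp only [Finset.coe_filter, Finset.mem_Icc, Set.mem_ofPred_eq] at hx hy
    obtain ⟨m, rfl⟩ := hx.2
    obtain ⟨n, rfl⟩ := hy.2
    simp only [Nat.mul_div_cancel_left _ hs] at hxy
    rw [hxy]
  rw [h2]
  have h3 : ∑ m ∈ ((Finset.Icc 1 X).filter (fun k => s ∣ k)).image (fun k => k / s), g m / (m : ℝ) =
      ∑ m ∈ (((Finset.Icc 1 X).filter (fun k => s ∣ k)).image (fun k => k / s)).filter (fun m => m ≤ M), g m / (m : ℝ) := by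
    rw [Finset.sum_filter]
    apply Finset.sum_congr rfl
    intro m _
    split_ifs with h
    · rfl
    · rw [hM m (by omega), zero_div]
  rw [h3]
  apply Finset.sum_le_sum_of_subset_of_nonneg
  · intro m hm
    simp only [Finset.mem_filter, Finset.mem_image, Finset.mem_Icc] at hm ⊢
    obtain ⟨⟨k, ⟨⟨hk1, hk2⟩, hk3⟩, rfl⟩, hm2⟩ := hm
    exact ⟨Nat.div_pos (Nat.le_of_dvd hk1 hk3) hs, hm2⟩
  · intro m _ _
    have := hg m
    positivity

/-- general convolution bound -/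
theorem cv_bd (q f : ℕ → ℂ) (S : Finset ℕ) (hS : ∀ n, q n ≠ 0 → n ∈ S) (hS1 : ∀ s ∈ S, 1 ≤ s) (X M : ℕ) (V : ℝ) (hV0 : 0 ≤ V)
    (hV : ∀ k ∈ Finset.Icc 1 X, ((S.filter (fun s => s ∣ k)).card : ℝ) ≤ V) (hM : ∀ n, M < n → f n = 0) :
    N2 X (cv q f) ≤ V * (∑ s ∈ S, ‖q s‖ ^ 2 / s) * N2 M f := by
  have h1 : ∀ k ∈ Finset.Icc 1 X, ‖cv q f k‖ ^ 2 / (k : ℝ) ≤
      V * ∑ s ∈ S.filter (fun s => s ∣ k), ‖q s‖ ^ 2 * (‖f (k / s)‖ ^ 2 / k) := by
    intro k hk
    have hk1 := (Finset.mem_Icc.1 hk).1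
    rw [cv_filter q f S hS k (by omega)]
    have h2 : ‖∑ s ∈ S.filter (fun s => s ∣ k), q s * f (k / s)‖ ^ 2 ≤
        ((S.filter (fun s => s ∣ k)).card : ℝ) * ∑ s ∈ S.filter (fun s => s ∣ k), (‖q s‖ * ‖f (k / s)‖) ^ 2 := by
      calc ‖∑ s ∈ S.filter (fun s => s ∣ k), q s * f (k / s)‖ ^ 2 ≤ (∑ s ∈ S.filter (fun s => s ∣ k), ‖q s‖ * ‖f (k / s)‖) ^ 2 := by
            apply pow_le_pow_left₀ (norm_nonneg _)
            refine (norm_sum_le _ _).trans (le_of_eq ?_)
            apply Finset.sum_congr rfl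
            intro s _
            rw [norm_mul]
        _ ≤ _ := sq_sum_le_card_mul_sum_sq
    have hk0 : (0 : ℝ) < k := by exact_mod_cast hk1
    rw [div_le_iff₀ hk0]
    refine h2.trans ?_
    have h3 : V * (∑ s ∈ S.filter (fun s => s ∣ k), ‖q s‖ ^ 2 * (‖f (k / s)‖ ^ 2 / k)) * (k : ℝ) =
        V * ∑ s ∈ S.filter (fun s => s ∣ k), (‖q s‖ * ‖f (k / s)‖) ^ 2 := by
      rw [mul_assoc, Finset.sum_mul]
      congr 1
      apply Finset.sum_congr rfl
      intro s _
      field_simp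
    rw [h3]
    apply mul_le_mul_of_nonneg_right (hV k hk)
    positivity
  unfold N2
  calc ∑ k ∈ Finset.Icc 1 X, ‖cv q f k‖ ^ 2 / (k : ℝ) ≤
      ∑ k ∈ Finset.Icc 1 X, V * ∑ s ∈ S.filter (fun s => s ∣ k), ‖q s‖ ^ 2 * (‖f (k / s)‖ ^ 2 / k) := Finset.sum_le_sum h1
    _ = V * ∑ s ∈ S, ‖q s‖ ^ 2 * ∑ k ∈ (Finset.Icc 1 X).filter (fun k => s ∣ k), ‖f (k / s)‖ ^ 2 / k := by
        rw [← Finset.mul_sum]
        congr 1
        simp only [Finset.sum_filter]
        rw [Finset.sum_comm]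
        apply Finset.sum_congr rfl
        intro s _
        rw [Finset.mul_sum]
        apply Finset.sum_congr rfl
        intro k _
        split_ifs <;> simp
    _ ≤ V * ∑ s ∈ S, ‖q s‖ ^ 2 * ((1 / (s : ℝ)) * ∑ m ∈ Finset.Icc 1 M, ‖f m‖ ^ 2 / m) := by
        apply mul_le_mul_of_nonneg_left _ hV0
        apply Finset.sum_le_sum
        intro s hs
        apply mul_le_mul_of_nonneg_left _ (by positivity)
        exact sum_mult s X M (hS1 s hs) (fun n => ‖f n‖ ^ 2) (fun n => by positivity) (fun n hn => by simp [hM n hn])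
    _ = _ := by
        rw [mul_assoc, Finset.sum_mul]
        congr 1
        apply Finset.sum_congr rfl
        intro s _
        ring

theorem XB_pos (D : ℝ) (j : ℕ) : 0 < XB D j := Real.exp_pos _

theorem mem_PB {D : ℝ} {j p : ℕ} (h : p ∈ PB D j) : p.Prime ∧ XB D (j + 1) < p ∧ (p : ℝ) ≤ XB D j := by
  unfold PB at h
  rw [Finset.mem_filter, Finset.mem_Icc] at h
  refine ⟨h.2.1, h.2.2, ?_⟩
  exact (Nat.le_floor_iff (XB_pos D j).le).1 h.1.2

theorem card_PB_dvd (D : ℝ) (j k : ℕ) (Y : ℝ) (hD : 0 < D) (hk : 1 ≤ k) (hkY : (k : ℝ) ≤ Y) :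
    (((PB D j).filter (fun p => p ∣ k)).card : ℝ) ≤ Real.log Y * Real.exp (j + 1) / D := by
  obtain ⟨T, hT⟩ : ∃ T : Finset ℕ, T = (PB D j).filter (fun p => p ∣ k) := ⟨_, rfl⟩
  rw [← hT]
  have hY : 1 ≤ Y := le_trans (by exact_mod_cast hk) hkY
  have h1 : ∏ p ∈ T, p ∣ k := by
    apply Finset.prod_primes_dvd
    · intro p hp
      rw [hT, Finset.mem_filter] at hp
      exact (mem_PB hp.1).1.prime
    · intro p hp
      rw [hT, Finset.mem_filter] at hp
      exact hp.2
  have h2 : (∏ p ∈ T, (p : ℝ)) ≤ Y := by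
    have : ((∏ p ∈ T, p : ℕ) : ℝ) ≤ (k : ℝ) := by exact_mod_cast Nat.le_of_dvd hk h1
    push_cast at this
    linarith
  have h3 : XB D (j + 1) ^ T.card ≤ ∏ p ∈ T, (p : ℝ) := by
    rw [← Finset.prod_const]
    apply Finset.prod_le_prod
    · intro p _
      exact (XB_pos D (j + 1)).le
    · intro p hp
      rw [hT, Finset.mem_filter] at hp
      exact (mem_PB hp.1).2.1.le
  have h4 := h3.trans h2
  have h5 : (T.card : ℝ) * (D * Real.exp (-((j + 1 : ℕ) : ℝ))) ≤ Real.log Y := by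
    have := Real.log_le_log (pow_pos (XB_pos D (j + 1)) _) h4
    rw [Real.log_pow] at this
    unfold XB at this
    rw [Real.log_exp] at this
    exact this
  rw [le_div_iff₀ hD]
  have h6 : Real.exp (-((j + 1 : ℕ) : ℝ)) * Real.exp ((j : ℝ) + 1) = 1 := by
    rw [← Real.exp_add]; push_cast; simp
  calc (T.card : ℝ) * D = (T.card : ℝ) * (D * Real.exp (-((j + 1 : ℕ) : ℝ))) * Real.exp ((j : ℝ) + 1) := by
        rw [mul_assoc, mul_assoc, h6]; ring
    _ ≤ Real.log Y * Real.exp ((j : ℝ) + 1) := by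
        apply mul_le_mul_of_nonneg_right h5 (Real.exp_pos _).le

theorem qb_supp (D : ℝ) (a a2 : ℕ → ℂ) (j n : ℕ) (h : qb D a a2 j n ≠ 0) :
    n ∈ PB D j ∪ (PB D j).image (fun p => p ^ 2) := by
  unfold qb at h
  rw [Finset.mem_union, Finset.mem_image]
  by_contra hc
  push Not at hc
  apply h
  rw [if_neg hc.1, if_neg]
  · simp
  · rintro ⟨h1, h2⟩
    exact hc.2 _ h1 h2.symm

theorem qb_prime (D : ℝ) (a a2 : ℕ → ℂ) (j p : ℕ) (h : p ∈ PB D j) : qb D a a2 j p = a p := by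
  unfold qb
  rw [if_pos h, if_neg, add_zero]
  rintro ⟨h1, h2⟩
  have hp := (mem_PB h).1
  rw [h2] at hp
  exact Nat.Prime.not_prime_pow (n := 2) le_rfl hp

theorem qb_sq (D : ℝ) (a a2 : ℕ → ℂ) (j p : ℕ) (h : p ∈ PB D j) : qb D a a2 j (p ^ 2) = a2 p / 2 := by
  unfold qb
  have h1 : p ^ 2 ∉ PB D j := by
    intro h2
    exact Nat.Prime.not_prime_pow (n := 2) le_rfl (mem_PB h2).1
  have h3 : Nat.sqrt (p ^ 2) = p := by
    rw [pow_two]; exact Nat.sqrt_eq p
  rw [if_neg h1, h3, if_pos ⟨h, rfl⟩, zero_add]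

theorem t_QM : S_QM := by
  rintro ⟨C, hC1, hC⟩
  refine ⟨4 * Real.exp 1 * C, ?_, ?_⟩
  · have : 1 ≤ Real.exp 1 := by
      have := Real.add_one_le_exp (1 : ℝ)
      linarith
    nlinarith
  · intro D A j K M a a2 f hD hA hM hK ha ha2 hf
    have hD0 : 0 < D := by linarith
    have hX1 : 1 ≤ ⌊XB D j⌋₊ := by
      rw [Nat.le_floor_iff (XB_pos D j).le]
      unfold XB
      push_cast
      apply Real.one_le_exp
      positivity
    have hK1 : 1 ≤ K := le_trans (Nat.one_le_pow _ _ hX1) hK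
    have hKM : (1 : ℝ) ≤ (K : ℝ) * M := by
      have h1 : (1 : ℝ) ≤ K := by exact_mod_cast hK1
      have h2 : (1 : ℝ) ≤ M := by exact_mod_cast hM
      nlinarith
    have hlog : 0 ≤ Real.log ((K : ℝ) * M) := Real.log_nonneg hKM
    obtain ⟨V, hV⟩ : ∃ V : ℝ, V = 2 * (Real.log ((K : ℝ) * M) * Real.exp (j + 1) / D) := ⟨_, rfl⟩
    have hV0 : 0 ≤ V := by rw [hV]; positivity
    have key := cv_bd (qb D a a2 j) f (PB D j ∪ (PB D j).image (fun p => p ^ 2)) (qb_supp D a a2 j) (by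
      intro s hs
      rw [Finset.mem_union, Finset.mem_image] at hs
      rcases hs with hs | ⟨p, hp, rfl⟩
      · exact (mem_PB hs).1.one_lt.le
      · exact Nat.one_le_pow _ _ (mem_PB hp).1.pos) (K * M) M V hV0 (by
      intro k hk
      rw [Finset.mem_Icc] at hk
      have hkY : (k : ℝ) ≤ (K : ℝ) * M := by exact_mod_cast hk.2
      have h1 := card_PB_dvd D j k _ hD0 hk.1 hkY
      have h2 : ((PB D j ∪ (PB D j).image (fun p => p ^ 2)).filter (fun s => s ∣ k)).card ≤
          ((PB D j).filter (fun p => p ∣ k)).card + ((PB D j).filter (fun p => p ∣ k)).card := by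
        rw [Finset.filter_union]
        refine (Finset.card_union_le _ _).trans ?_
        apply Nat.add_le_add_left
        have h3 : ((PB D j).image (fun p => p ^ 2)).filter (fun s => s ∣ k) ⊆
            ((PB D j).filter (fun p => p ∣ k)).image (fun p => p ^ 2) := by
          intro s hs
          simp only [Finset.mem_filter, Finset.mem_image] at hs ⊢
          obtain ⟨⟨p, hp, rfl⟩, hs⟩ := hs
          exact ⟨p, ⟨hp, dvd_trans (Dvd.intro_left (p ^ 1) rfl) hs⟩, rfl⟩
        exact (Finset.card_le_card h3).trans Finset.card_image_le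
      have h4 : (((PB D j ∪ (PB D j).image (fun p => p ^ 2)).filter (fun s => s ∣ k)).card : ℝ) ≤
          (((PB D j).filter (fun p => p ∣ k)).card : ℝ) + (((PB D j).filter (fun p => p ∣ k)).card : ℝ) := by
        exact_mod_cast h2
      rw [hV]
      linarith) hf
    have hsum : ∑ s ∈ PB D j ∪ (PB D j).image (fun p => p ^ 2), ‖qb D a a2 j s‖ ^ 2 / (s : ℝ) ≤ 2 * A ^ 2 * C := by
      rw [Finset.sum_union]
      · rw [Finset.sum_image]
        · have e1 : ∑ s ∈ PB D j, ‖qb D a a2 j s‖ ^ 2 / (s : ℝ) ≤ A ^ 2 * C := by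
            calc ∑ s ∈ PB D j, ‖qb D a a2 j s‖ ^ 2 / (s : ℝ) ≤ ∑ s ∈ PB D j, A ^ 2 * (1 / (s : ℝ)) := by
                  apply Finset.sum_le_sum
                  intro s hs
                  rw [qb_prime D a a2 j s hs, mul_one_div]
                  have := ha s
                  gcongr
              _ = A ^ 2 * ∑ s ∈ PB D j, 1 / (s : ℝ) := by rw [Finset.mul_sum]
              _ ≤ A ^ 2 * C := by
                  apply mul_le_mul_of_nonneg_left (hC D j hD) (by positivity)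
          have e2 : ∑ s ∈ PB D j, ‖qb D a a2 j (s ^ 2)‖ ^ 2 / ((s ^ 2 : ℕ) : ℝ) ≤ A ^ 2 * C := by
            calc ∑ s ∈ PB D j, ‖qb D a a2 j (s ^ 2)‖ ^ 2 / ((s ^ 2 : ℕ) : ℝ) ≤ ∑ s ∈ PB D j, A ^ 2 * (1 / (s : ℝ)) := by
                  apply Finset.sum_le_sum
                  intro s hs
                  rw [qb_sq D a a2 j s hs, mul_one_div]
                  have h1 := ha2 s
                  have hs1 : (1 : ℝ) ≤ s := by exact_mod_cast (mem_PB hs).1.one_lt.le
                  have h2 : ‖a2 s / 2‖ ≤ A := by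
                    rw [norm_div]
                    have : ‖(2 : ℂ)‖ = 2 := by norm_num
                    rw [this]
                    have := norm_nonneg (a2 s)
                    linarith
                  have h3 : (s : ℝ) ≤ ((s ^ 2 : ℕ) : ℝ) := by
                    push_cast
                    nlinarith
                  have h4 : (0 : ℝ) < s := by linarith
                  gcongr
              _ = A ^ 2 * ∑ s ∈ PB D j, 1 / (s : ℝ) := by rw [Finset.mul_sum]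
              _ ≤ A ^ 2 * C := by
                  apply mul_le_mul_of_nonneg_left (hC D j hD) (by positivity)
          linarith
        · intro x _ y _ hxy
          simp only at hxy
          exact Nat.pow_left_injective (n := 2) (by norm_num) hxy
      · rw [Finset.disjoint_left]
        intro s hs hs2
        rw [Finset.mem_image] at hs2
        obtain ⟨p, _, rfl⟩ := hs2
        exact Nat.Prime.not_prime_pow (n := 2) le_rfl (mem_PB hs).1
    have hN : 0 ≤ N2 M f := by unfold N2; positivity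
    refine key.trans ?_
    calc V * (∑ s ∈ PB D j ∪ (PB D j).image (fun p => p ^ 2), ‖qb D a a2 j s‖ ^ 2 / (s : ℝ)) * N2 M f ≤
        V * (2 * A ^ 2 * C) * N2 M f := by gcongr
      _ = 4 * Real.exp 1 * C * A ^ 2 * (Real.exp (j : ℝ) * Real.log (K * M) / D) * N2 M f := by
          rw [hV, Real.exp_add]; ring

end

end Pool.Agent.Q14.UM
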